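import Pool.Agent.Helper3.Q1.Laws

/-! The one step entropy inequality. -/

namespace Pool.Agent.Helper3.Q1

open Finset

/-- summing over the cell of the end point at a fine or a coarse level -/
theorem Ker.sum_cell (K : Ker) {w : List ℕ} (hw : w ∈ K.A) {g : ℤ → ℝ} (s r : ℕ) (hg : Pr (s + K.k) g) (z : ℤ) :
    ∑ x ∈ range (3 ^ (s + r + K.k + 1)), g (x : ℤ) * (K.κ w (x : ℤ) * ic (s + r) z (nx w (x : ℤ))) =
      ∑ x ∈ range (3 ^ (s + K.k + 1)), g (x : ℤ) * (K.κ w (x : ℤ) * ic s z (nx w (x : ℤ))) := by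
  rw [show s + r + K.k + 1 = (s + K.k) + r + 1 by ring,
    sum_level (s + K.k) r (fun x => g x * (K.κ w x * ic (s + r) z (nx w x)))]
  apply sum_congr rfl
  intro x _
  have h1 : ∀ v ∈ range (3 ^ r), g ((x : ℤ) + 3 ^ (s + K.k + 1) * (v : ℤ)) * (K.κ w ((x : ℤ) + 3 ^ (s + K.k + 1) * (v : ℤ)) *
      ic (s + r) z (nx w ((x : ℤ) + 3 ^ (s + K.k + 1) * (v : ℤ)))) =
      g x * (K.κ w x * ic (s + r) z (nx w x + 2 ^ w.sum * (3 ^ (s + 1) * (v : ℤ)))) := by
    intro v _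
    rw [hg.mul, ((K.κ_pr w).le (Nat.le_add_left K.k s)).mul]
    by_cases h0 : K.κ w x = 0
    · rw [h0]; ring
    · have h2 := nx_shift (K.supp w hw x h0).1 (3 ^ (s + 1) * (v : ℤ))
      rw [K.len w hw] at h2
      rw [show (x : ℤ) + 3 ^ (s + K.k + 1) * (v : ℤ) = x + 3 ^ K.k * (3 ^ (s + 1) * (v : ℤ)) by ring, h2]
  rw [sum_congr rfl h1, ← mul_sum, ← mul_sum, sum_ic_shift s r z _ _ (two_pow_not_dvd _)]

theorem stepS : StepS := by
  intro K p hp s t hst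
  obtain ⟨r, rfl⟩ := Nat.exists_eq_add_of_le hst
  have hq := K.push_law hp
  rw [hh_eq hp (show s + K.k ≤ s + r + K.k by omega), hh_eq hq hst]
  have h1 : ∀ x : ℤ, LL (p (s + r + K.k) x) (p (s + K.k) x) =
      ∑ z ∈ range (3 ^ (s + r + 1)), ∑ w ∈ K.A, LL (K.κ w x * ic (s + r) (z : ℤ) (nx w x) * p (s + r + K.k) x)
        (K.κ w x * ic (s + r) (z : ℤ) (nx w x) * p (s + K.k) x) := by
    intro x
    have hle : p (s + K.k) x = 0 → p (s + r + K.k) x = 0 := fun h0 =>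
      le_antisymm (h0 ▸ law_le' hp (by omega) x) (hp.nonneg _ _)
    by_cases h0 : p (s + r + K.k) x = 0
    · rw [h0, LL_zero]
      symm
      apply sum_eq_zero; intro z _
      apply sum_eq_zero; intro w _
      rw [mul_zero, LL_zero]
    · have hx := law_unit hp h0
      have h2 : ∀ z ∈ range (3 ^ (s + r + 1)), ∑ w ∈ K.A, LL (K.κ w x * ic (s + r) (z : ℤ) (nx w x) * p (s + r + K.k) x)
        (K.κ w x * ic (s + r) (z : ℤ) (nx w x) * p (s + K.k) x) =
        ∑ w ∈ K.A, (K.κ w x * ic (s + r) (z : ℤ) (nx w x)) * LL (p (s + r + K.k) x) (p (s + K.k) x) := by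
        intro z _
        apply sum_congr rfl
        intro w _
        exact LL_smul hle
      rw [sum_congr rfl h2, sum_comm]
      simp only [← sum_mul, ← mul_sum, sum_ic, mul_one]
      rw [K.one x hx, one_mul]
  rw [sum_congr rfl (fun (x : ℕ) _ => h1 (x : ℤ)), sum_comm]
  apply sum_le_sum
  intro z _
  have e1 : K.push p (s + r) (z : ℤ) = ∑ i ∈ range (3 ^ (s + r + K.k + 1)) ×ˢ K.A,
      K.κ i.2 (i.1 : ℤ) * ic (s + r) (z : ℤ) (nx i.2 (i.1 : ℤ)) * p (s + r + K.k) (i.1 : ℤ) := by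
    rw [sum_product]
    unfold Ker.push EE Ker.P
    apply sum_congr rfl
    intro x _
    rw [mul_sum]
    apply sum_congr rfl
    intro w _
    ring
  have e2 : K.push p s (z : ℤ) = ∑ i ∈ range (3 ^ (s + r + K.k + 1)) ×ˢ K.A,
      K.κ i.2 (i.1 : ℤ) * ic (s + r) (z : ℤ) (nx i.2 (i.1 : ℤ)) * p (s + K.k) (i.1 : ℤ) := by
    rw [sum_product_right]
    have h3 : ∀ w ∈ K.A, ∑ x ∈ range (3 ^ (s + r + K.k + 1)), K.κ w (x : ℤ) * ic (s + r) (z : ℤ) (nx w (x : ℤ)) * p (s + K.k) (x : ℤ) =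
        ∑ x ∈ range (3 ^ (s + K.k + 1)), p (s + K.k) (x : ℤ) * (K.κ w (x : ℤ) * ic s (z : ℤ) (nx w (x : ℤ))) := by
      intro w hw
      rw [← K.sum_cell hw s r (hp.pr (s + K.k)) z]
      apply sum_congr rfl
      intro x _
      ring
    rw [sum_congr rfl h3, sum_comm]
    unfold Ker.push EE Ker.P
    apply sum_congr rfl
    intro x _
    rw [mul_sum]
  rw [e1, e2, ← sum_product']
  apply LL_sum
  · intro i _
    exact mul_nonneg (mul_nonneg (K.nonneg _ _) (ic_nonneg _ _ _)) (hp.nonneg _ _)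
  · intro i _
    exact mul_nonneg (mul_nonneg (K.nonneg _ _) (ic_nonneg _ _ _)) (hp.nonneg _ _)
  · intro i _ h0
    rcases mul_eq_zero.mp h0 with h | h
    · rw [h, zero_mul]
    · rw [le_antisymm (h ▸ law_le' hp (show s + K.k ≤ s + r + K.k by omega) (i.1 : ℤ)) (hp.nonneg _ _), mul_zero]

end Pool.Agent.Helper3.Q1
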