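import Pool.Agent.Helper3.Q1.ANdefs

/-! Recursion for the number of preimages. -/

namespace Pool.Agent.Helper3.Q1

open Finset Pool.Agent.Helper3.ND Pool.Agent.Helper3.TD

theorem dvd_even {n : ℕ} {x y : ℤ} (hy : y % 2 = 0) : (3 : ℤ) ^ n ∣ x - T y ↔ (3 : ℤ) ^ n ∣ 2 * x - y := by
  have h1 : 2 * (x - T y) = 2 * x - y := by rw [mul_sub, T_even hy]
  rw [← h1]
  constructor
  · exact fun h => Dvd.dvd.mul_left h 2
  · intro h
    apply IsCoprime.dvd_of_dvd_mul_left _ h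
    apply IsCoprime.pow_left
    norm_num [Int.isCoprime_iff_gcd_eq_one]

theorem dvd_odd {n : ℕ} {x y : ℤ} (hy : y % 2 = 1) : (3 : ℤ) ^ n ∣ x - T y ↔ (3 : ℤ) ^ n ∣ (2 * x - 1) - 3 * y := by
  have h1 : 2 * (x - T y) = (2 * x - 1) - 3 * y := by rw [mul_sub, T_odd hy]; ring
  rw [← h1]
  constructor
  · exact fun h => Dvd.dvd.mul_left h 2
  · intro h
    apply IsCoprime.dvd_of_dvd_mul_left _ h
    apply IsCoprime.pow_left
    norm_num [Int.isCoprime_iff_gcd_eq_one]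

theorem dvd_third {j : ℕ} {x y : ℤ} : (3 : ℤ) ^ (j + 1) ∣ (2 * x - 1) - 3 * y ↔ (3 : ℤ) ∣ 2 * x - 1 ∧ (3 : ℤ) ^ j ∣ (2 * x - 1) / 3 - y := by
  constructor
  · intro h
    have h3 : (3 : ℤ) ∣ 2 * x - 1 := by
      have h1 : (3 : ℤ) ∣ (2 * x - 1) - 3 * y := dvd_trans (dvd_pow_self 3 (by omega)) h
      have := dvd_add h1 (Dvd.intro y rfl : (3 : ℤ) ∣ 3 * y)
      simpa using this
    refine ⟨h3, ?_⟩
    obtain ⟨q, hq⟩ := h3
    rw [hq, Int.mul_ediv_cancel_left _ (by norm_num)]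
    rw [hq, ← mul_sub, pow_succ, mul_comm ((3 : ℤ) ^ j) 3] at h
    exact (mul_dvd_mul_iff_left (by norm_num)).mp h
  · rintro ⟨⟨q, hq⟩, h⟩
    rw [hq, Int.mul_ediv_cancel_left _ (by norm_num)] at h
    rw [hq, ← mul_sub, pow_succ, mul_comm ((3 : ℤ) ^ j) 3]
    exact mul_dvd_mul_left 3 h

theorem an0_rec (t j : ℕ) (x : ℤ) : Dn (j + 1) (t + 1) (j + 1) x =
    1 / 2 * Dn (j + 1) t (j + 1) (2 * x) + (if (3 : ℤ) ∣ 2 * x - 1 then 3 / 2 * Dn j t j ((2 * x - 1) / 3) else 0) := by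
  classical
  have hR : (1 / 2 * Dn (j + 1) t (j + 1) (2 * x) + (if (3 : ℤ) ∣ 2 * x - 1 then 3 / 2 * Dn j t j ((2 * x - 1) / 3) else 0)) =
      ∑ r ∈ range (2 ^ t), ((if od t (r : ℤ) = j + 1 ∧ (3 : ℤ) ^ (j + 1) ∣ 2 * x - T^[t] (r : ℤ) then (3 : ℝ) ^ (j + 1) / 2 ^ (t + 1) else 0) +
        (if od t (r : ℤ) = j ∧ (3 : ℤ) ^ (j + 1) ∣ (2 * x - 1) - 3 * T^[t] (r : ℤ) then (3 : ℝ) ^ (j + 1) / 2 ^ (t + 1) else 0)) := by
    rw [sum_add_distrib]
    congr 1
    · unfold Dn D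
      rw [mul_sum]
      apply sum_congr rfl
      intro r _
      simp only [true_and]
      split_ifs
      · rw [pow_succ (2 : ℝ) t]; field_simp
      · ring
    · split_ifs with h3
      · unfold Dn D
        rw [mul_sum]
        apply sum_congr rfl
        intro r _
        simp only [true_and]
        have : (3 : ℤ) ^ (j + 1) ∣ (2 * x - 1) - 3 * T^[t] (r : ℤ) ↔ (3 : ℤ) ^ j ∣ (2 * x - 1) / 3 - T^[t] (r : ℤ) := by
          rw [dvd_third]; exact ⟨fun h => h.2, fun h => ⟨h3, h⟩⟩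
        simp only [this]
        split_ifs
        · rw [pow_succ (2 : ℝ) t, pow_succ (3 : ℝ) j]; field_simp
        · ring
      · symm
        apply sum_eq_zero
        intro r _
        rw [if_neg]
        rintro ⟨_, h⟩
        exact h3 (dvd_third.mp h).1
  rw [hR]
  unfold Dn D
  have e : 2 ^ (t + 1) = 2 ^ t + 2 ^ t := by ring
  rw [e, sum_range_add, ← sum_add_distrib]
  apply sum_congr rfl
  intro r _
  have h1 := shift t (r : ℤ) 1
  have e2 : (((2 ^ t + r : ℕ)) : ℤ) = (r : ℤ) + 2 ^ t * 1 := by push_cast; ring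
  rw [e2, od_succ_last, od_succ_last, Function.iterate_succ_apply', Function.iterate_succ_apply', h1.1, h1.2]
  obtain ⟨y, hy⟩ : ∃ y, y = T^[t] (r : ℤ) := ⟨_, rfl⟩
  obtain ⟨o, ho⟩ : ∃ o, o = od t (r : ℤ) := ⟨_, rfl⟩
  rw [← hy, ← ho]
  have h3 : (3 : ℤ) ^ o % 2 = 1 := by
    have : Odd ((3 : ℤ) ^ o) := Odd.pow (by decide)
    exact Int.odd_iff.mp this
  simp only [true_and]
  have sh : ∀ (a : ℤ), (o = j + 1 → ((3 : ℤ) ^ (j + 1) ∣ a - (y + 3 ^ o * 1) ↔ (3 : ℤ) ^ (j + 1) ∣ a - y)) := by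
    intro a ho
    rw [ho, show a - (y + 3 ^ (j + 1) * 1) = (a - y) - 3 ^ (j + 1) by ring]
    exact dvd_sub_self_right
  have sh' : ∀ (a : ℤ), (o = j → ((3 : ℤ) ^ (j + 1) ∣ a - 3 * (y + 3 ^ o * 1) ↔ (3 : ℤ) ^ (j + 1) ∣ a - 3 * y)) := by
    intro a ho
    rw [ho, show a - 3 * (y + 3 ^ j * 1) = (a - 3 * y) - 3 ^ (j + 1) by ring]
    exact dvd_sub_self_right
  rcases par_cases y with h | h
  · have h4 : (y + 3 ^ o * 1) % 2 = 1 := by omega
    rw [h, h4]
    simp only [Int.toNat_zero, Int.toNat_one, add_zero, Nat.add_right_cancel_iff]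
    simp only [dvd_even h, dvd_odd h4]
    congr 1
    by_cases hoj : o = j
    · simp only [hoj, true_and]
      have := sh' (2 * x - 1) hoj
      rw [hoj] at this
      simp only [this]
    · simp [hoj]
  · have h4 : (y + 3 ^ o * 1) % 2 = 0 := by omega
    rw [h, h4]
    simp only [Int.toNat_zero, Int.toNat_one, add_zero, Nat.add_right_cancel_iff]
    simp only [dvd_odd h, dvd_even h4]
    rw [add_comm]
    congr 1
    by_cases hoj : o = j + 1
    · simp only [hoj, true_and]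
      have := sh (2 * x) hoj
      rw [hoj] at this
      simp only [this]
    · simp [hoj]

theorem od_zero_iff (t : ℕ) : ∀ r : ℕ, r < 2 ^ t → (od t (r : ℤ) = 0 ↔ r = 0) := by
  induction t with
  | zero => intro r hr; simp [od]; omega
  | succ t ih =>
    intro r hr
    constructor
    · intro h
      rw [od] at h
      have h1 : od t (T (r : ℤ)) = 0 := by omega
      have h2 : ((r : ℤ) % 2).toNat = 0 := by omega
      have h3 : (r : ℤ) % 2 = 0 := by omega
      have h4 : T (r : ℤ) = ((r / 2 : ℕ) : ℤ) := by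
        unfold T; rw [if_pos h3]; push_cast; rfl
      rw [h4] at h1
      have h5 := (ih (r / 2) (by rw [pow_succ] at hr; omega)).mp h1
      omega
    · rintro rfl
      have : ∀ t, od t (0 : ℤ) = 0 := by
        intro t
        induction t with
        | zero => rfl
        | succ t ih => simp [od, T, ih]
      exact this _

theorem an0 : AN0 := by
  classical
  refine ⟨an0_rec, ?_, ?_⟩
  · intro t x
    unfold Dn D
    rw [sum_eq_single_of_mem 0 (mem_range.mpr (by positivity))]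
    · rw [if_pos]
      · simp
      · refine ⟨(od_zero_iff t 0 (by positivity)).mpr rfl, trivial, ?_⟩
        rw [pow_zero]; exact one_dvd _
    · intro r hr hne
      rw [if_neg]
      rintro ⟨h, _⟩
      exact hne ((od_zero_iff t r (mem_range.mp hr)).mp h)
  · intro j x
    unfold Dn D
    apply sum_eq_zero
    intro r _
    rw [if_neg]
    rintro ⟨h, _⟩
    simp [od] at h

end Pool.Agent.Helper3.Q1
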