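import Pool.Agent.Helper3.Q1.ANdefs
import Pool.Agent.Helper3.TD.Dl

/-! Relative mean absolute difference of densities for a single number of odd steps. -/

namespace Pool.Agent.Helper3.Q1

open Finset Pool.Agent.Helper3.ND Pool.Agent.Helper3.TD

open Classical in
theorem mass_single (s u k : ℕ) (hs : 1 ≤ s) (B : ℕ → Prop) :
    mass (s + u) k (fun r => B (yy s u r)) ≤ (((range (2 ^ u)).filter (fun y => B y)).card : ℝ) / 2 ^ u / Real.sqrt s := by
  have hs0 : (0 : ℝ) < s := by exact_mod_cast hs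
  have hsq := Real.sqrt_pos.mpr hs0
  obtain ⟨f, hf⟩ : ∃ f : ℕ → ℕ → ℝ, f = fun r1 y : ℕ => if B y then (if od s (r1 : ℤ) = k - od u (y : ℤ) then 1 else 0) else 0 := ⟨_, rfl⟩
  have h1 : (((range (2 ^ (s + u))).filter (fun r : ℕ => od (s + u) (r : ℤ) = k ∧ B (yy s u r))).card : ℝ) ≤
      ∑ r ∈ range (2 ^ (s + u)), f (r % 2 ^ s) (yy s u r) := by
    rw [card_eq_sum_ones, sum_filter]
    push_cast
    apply sum_le_sum
    intro r _
    rw [hf]
    simp only
    by_cases h : od (s + u) (r : ℤ) = k ∧ B (yy s u r)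
    · have a4 := od_split s u (r : ℤ)
      have a5 := od_mod s r
      rw [if_pos h, if_pos h.2, if_pos (by omega)]
    · rw [if_neg h]
      split_ifs <;> norm_num
  have h2 : ∑ r ∈ range (2 ^ (s + u)), f (r % 2 ^ s) (yy s u r) ≤
      (((range (2 ^ u)).filter (fun y => B y)).card : ℝ) * (2 ^ s / Real.sqrt s) := by
    rw [sum_split, sum_comm, card_eq_sum_ones, sum_filter]
    push_cast
    rw [sum_mul]
    apply sum_le_sum
    intro y _
    rw [hf]
    simp only
    split_ifs with hB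
    · rw [← sum_filter, sum_const, nsmul_eq_mul, mul_one, one_mul]
      exact le_trans (card_od_le s _) (choose_bound s _ hs)
    · simp
  unfold mass
  rw [div_le_iff₀ (by positivity)]
  refine le_trans h1 (le_trans h2 (le_of_eq ?_))
  rw [pow_add]; field_simp

theorem card_od_eq (t : ℕ) : ∀ k : ℕ, ∑ r ∈ range (2 ^ t), (if od t (r : ℤ) = k then (1 : ℝ) else 0) = (t.choose k : ℝ) := by
  induction t with
  | zero => intro k; cases k <;> simp [od]
  | succ t ih =>
    intro k
    rw [sum_last t (fun a _ => if a = k then (1 : ℝ) else 0), sum_add_distrib]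
    cases k with
    | zero =>
      rw [ih 0]
      simp
    | succ k =>
      have h1 : ∀ r ∈ range (2 ^ t), (if od t (r : ℤ) + 1 = k + 1 then (1 : ℝ) else 0) = if od t (r : ℤ) = k then 1 else 0 := by
        intro r _; simp
      rw [sum_congr rfl h1, ih (k + 1), ih k, Nat.choose_succ_succ]
      push_cast; ring

theorem mass_true (t k : ℕ) : mass t k (fun _ => True) = (t.choose k : ℝ) / 2 ^ t := by
  classical
  unfold mass
  rw [← card_od_eq, card_eq_sum_ones, sum_filter]
  push_cast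
  congr 1
  apply sum_congr rfl
  intro r _
  simp

theorem central_lower (n : ℕ) (hn : 1 ≤ n) : 16 ^ n ≤ (2 * n).choose n ^ 2 * (4 * n) := by
  induction n, hn using Nat.le_induction with
  | base => simp [Nat.choose]
  | succ n hn ih =>
    have h1 := Nat.succ_mul_centralBinom_succ n
    rw [Nat.centralBinom, Nat.centralBinom] at h1
    have h2 : (n + 1) ^ 2 * 16 ^ (n + 1) ≤ (n + 1) ^ 2 * ((2 * (n + 1)).choose (n + 1) ^ 2 * (4 * (n + 1))) := by
      calc (n + 1) ^ 2 * 16 ^ (n + 1) = 16 * (n + 1) ^ 2 * 16 ^ n := by ring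
        _ ≤ 16 * (n + 1) ^ 2 * ((2 * n).choose n ^ 2 * (4 * n)) := Nat.mul_le_mul_left _ ih
        _ = 4 * n * (n + 1) * ((2 * n).choose n ^ 2 * (16 * (n + 1))) := by ring
        _ ≤ (2 * n + 1) ^ 2 * ((2 * n).choose n ^ 2 * (16 * (n + 1))) := by
            apply Nat.mul_le_mul_right
            nlinarith
        _ = (2 * (2 * n + 1) * (2 * n).choose n) ^ 2 * (4 * (n + 1)) := by ring
        _ = ((n + 1) * (2 * (n + 1)).choose (n + 1)) ^ 2 * (4 * (n + 1)) := by rw [h1]
        _ = _ := by ring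
    exact Nat.le_of_mul_le_mul_left h2 (by positivity)

theorem central_lower_real (n : ℕ) (hn : 1 ≤ n) : 1 / (2 * Real.sqrt n) ≤ ((2 * n).choose n : ℝ) / 4 ^ n := by
  have h1 : (16 : ℝ) ^ n ≤ (((2 * n).choose n : ℝ)) ^ 2 * (4 * n) := by exact_mod_cast central_lower n hn
  have hn0 : (0 : ℝ) < n := by exact_mod_cast hn
  have h3 : 0 < Real.sqrt n := Real.sqrt_pos.mpr hn0
  rw [div_le_div_iff₀ (by positivity) (by positivity), one_mul]
  apply le_of_sq_le_sq _ (by positivity)
  calc ((4 : ℝ) ^ n) ^ 2 = 16 ^ n := by rw [← pow_mul, mul_comm n 2, pow_mul]; norm_num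
    _ ≤ _ := h1
    _ = (((2 * n).choose n : ℝ) * (2 * Real.sqrt n)) ^ 2 := by
        rw [mul_pow, mul_pow, Real.sq_sqrt hn0.le]; ring

theorem off_up (a : ℕ) : ∀ i : ℕ, (1 - (i : ℝ) ^ 2 / (a + 1)) * ((2 * a).choose a : ℝ) ≤ ((2 * a).choose (a + i) : ℝ) := by
  intro i
  induction i with
  | zero => simp
  | succ i ih =>
    by_cases hneg : (1 : ℝ) - ((i + 1 : ℕ) : ℝ) ^ 2 / (a + 1) ≤ 0
    · refine le_trans (mul_nonpos_of_nonpos_of_nonneg hneg (by positivity)) (by positivity)
    · push Not at hneg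
      have ha : (0 : ℝ) < (a : ℝ) + 1 := by positivity
      have hi : ((i + 1 : ℕ) : ℝ) ^ 2 < a + 1 := by
        rw [sub_pos, div_lt_one ha] at hneg; exact hneg
      push_cast at hi
      have hia : i ≤ a := by
        have : (i : ℝ) < a + 1 := by nlinarith [Nat.cast_nonneg (α := ℝ) i]
        have h2 : i < a + 1 := by exact_mod_cast this
        omega
      have h1 : (2 * a).choose (a + i + 1) * (a + i + 1) = (2 * a).choose (a + i) * (a - i) := by
        have := Nat.choose_succ_right_eq (2 * a) (a + i)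
        rw [this]; congr 1; omega
      have h1r : ((2 * a).choose (a + i + 1) : ℝ) * (a + i + 1) = ((2 * a).choose (a + i) : ℝ) * (a - i) := by
        have : (((2 * a).choose (a + i + 1) * (a + i + 1) : ℕ) : ℝ) = (((2 * a).choose (a + i) * (a - i) : ℕ) : ℝ) := by rw [h1]
        rw [Nat.cast_mul, Nat.cast_mul, Nat.cast_sub hia] at this
        push_cast at this
        exact this
      have hpos : (0 : ℝ) < (a : ℝ) + i + 1 := by positivity
      rw [show a + (i + 1) = a + i + 1 by ring]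
      refine le_of_mul_le_mul_right ?_ hpos
      rw [h1r]
      have hai : (0 : ℝ) ≤ (a : ℝ) - i := by
        have : (i : ℝ) ≤ a := by exact_mod_cast hia
        linarith
      refine le_trans ?_ (mul_le_mul_of_nonneg_right ih hai)
      have hC : (0 : ℝ) ≤ ((2 * a).choose a : ℝ) := by positivity
      have key : (1 - ((i + 1 : ℕ) : ℝ) ^ 2 / (a + 1)) * (a + i + 1) ≤ (1 - (i : ℝ) ^ 2 / (a + 1)) * (a - i) := by
        push_cast
        have e1 : (1 - ((i : ℝ) + 1) ^ 2 / (a + 1)) * (a + i + 1) = ((a + 1) - ((i : ℝ) + 1) ^ 2) * (a + i + 1) / (a + 1) := by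
          field_simp
        have e2 : (1 - (i : ℝ) ^ 2 / (a + 1)) * (a - i) = ((a + 1) - (i : ℝ) ^ 2) * (a - i) / (a + 1) := by field_simp
        rw [e1, e2]
        apply div_le_div_of_nonneg_right _ ha.le
        have hi0 : (0 : ℝ) ≤ i := by positivity
        have ha0 : (0 : ℝ) ≤ a := by positivity
        nlinarith [mul_nonneg hi0 hi0, mul_nonneg hi0 (mul_nonneg hi0 hi0)]
      calc (1 - ((i + 1 : ℕ) : ℝ) ^ 2 / (a + 1)) * ((2 * a).choose a : ℝ) * (a + i + 1)
          = ((1 - ((i + 1 : ℕ) : ℝ) ^ 2 / (a + 1)) * (a + i + 1)) * ((2 * a).choose a : ℝ) := by ring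
        _ ≤ ((1 - (i : ℝ) ^ 2 / (a + 1)) * (a - i)) * ((2 * a).choose a : ℝ) := mul_le_mul_of_nonneg_right key hC
        _ = _ := by ring

theorem off_center (a j : ℕ) (h : 2 * ((j : ℝ) - a) ^ 2 ≤ a) : 1 / 2 * ((2 * a).choose a : ℝ) ≤ ((2 * a).choose j : ℝ) := by
  have ha : (0 : ℝ) < (a : ℝ) + 1 := by positivity
  rcases Nat.le_total a j with hj | hj
  · obtain ⟨i, rfl⟩ := Nat.exists_eq_add_of_le hj
    push_cast at h
    refine le_trans (mul_le_mul_of_nonneg_right ?_ (by positivity)) (off_up a i)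
    have : (i : ℝ) ^ 2 / (a + 1) ≤ 1 / 2 := by
      rw [div_le_iff₀ ha]; nlinarith
    linarith
  · obtain ⟨i, rfl⟩ := Nat.exists_eq_add_of_le hj
    push_cast at h
    have e : (2 * (j + i)).choose j = (2 * (j + i)).choose (j + i + i) := by
      rw [← Nat.choose_symm (by omega : j ≤ 2 * (j + i))]; congr 1; omega
    rw [e]
    refine le_trans (mul_le_mul_of_nonneg_right ?_ (by positivity)) (off_up (j + i) i)
    have ha' : (0 : ℝ) < (((j + i : ℕ) : ℝ)) + 1 := by positivity
    have : (i : ℝ) ^ 2 / (((j + i : ℕ) : ℝ) + 1) ≤ 1 / 2 := by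
      rw [div_le_iff₀ ha']; push_cast; nlinarith
    linarith

theorem mass_lower (t j : ℕ) (ht : 3 ≤ t) (h : (2 * (j : ℝ) - t) ^ 2 ≤ t) : 1 / 8 / Real.sqrt t ≤ mass t j (fun _ => True) := by
  rw [mass_true]
  have ht0 : (0 : ℝ) < t := by
    have : 0 < t := by omega
    exact_mod_cast this
  have hst := Real.sqrt_pos.mpr ht0
  have key : ∀ a i : ℕ, 1 ≤ a → 2 * ((i : ℝ) - a) ^ 2 ≤ a → a ≤ t → 1 / 4 / Real.sqrt t ≤ ((2 * a).choose i : ℝ) / 4 ^ a := by
    intro a i ha hi hat
    have h1 := off_center a i hi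
    have h2 := central_lower_real a ha
    have ha0 : (0 : ℝ) < a := by exact_mod_cast ha
    have hsa := Real.sqrt_pos.mpr ha0
    have h3 : Real.sqrt a ≤ Real.sqrt t := Real.sqrt_le_sqrt (by exact_mod_cast hat)
    calc 1 / 4 / Real.sqrt t ≤ 1 / 4 / Real.sqrt a := by
          apply div_le_div_of_nonneg_left (by norm_num) hsa h3
      _ = 1 / 2 * (1 / (2 * Real.sqrt a)) := by field_simp; norm_num
      _ ≤ 1 / 2 * (((2 * a).choose a : ℝ) / 4 ^ a) := by gcongr
      _ = (1 / 2 * ((2 * a).choose a : ℝ)) / 4 ^ a := by ring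
      _ ≤ _ := by gcongr
  rcases Nat.even_or_odd' t with ⟨a, ha | ha⟩
  · subst ha
    push_cast at h
    have h1 := key a j (by omega) (by nlinarith) (by omega)
    rw [pow_mul, show (2 : ℝ) ^ 2 = 4 by norm_num]
    refine le_trans ?_ h1
    gcongr; norm_num
  · subst ha
    push_cast at h
    have hpow : (2 : ℝ) ^ (2 * a + 1) = 2 * 4 ^ a := by rw [pow_succ, pow_mul]; norm_num; ring
    rw [hpow]
    have hfin : ∀ i : ℕ, 2 * ((i : ℝ) - a) ^ 2 ≤ a → (2 * a).choose i ≤ (2 * a + 1).choose j →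
        1 / 8 / Real.sqrt ((2 * a + 1 : ℕ) : ℝ) ≤ ((2 * a + 1).choose j : ℝ) / (2 * 4 ^ a) := by
      intro i hi hle
      have h1 := key a i (by omega) hi (by omega)
      have h2 : ((2 * a).choose i : ℝ) ≤ ((2 * a + 1).choose j : ℝ) := by exact_mod_cast hle
      calc 1 / 8 / Real.sqrt ((2 * a + 1 : ℕ) : ℝ) = 1 / 2 * (1 / 4 / Real.sqrt ((2 * a + 1 : ℕ) : ℝ)) := by ring
        _ ≤ 1 / 2 * (((2 * a).choose i : ℝ) / 4 ^ a) := by gcongr
        _ ≤ 1 / 2 * (((2 * a + 1).choose j : ℝ) / 4 ^ a) := by gcongr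
        _ = _ := by field_simp
    rcases Nat.lt_or_ge a j with hj | hj
    · obtain ⟨i, rfl⟩ := Nat.exists_eq_add_of_lt hj
      apply hfin (a + i)
      · push_cast at h ⊢
        have h0 : (0 : ℝ) ≤ i := by positivity
        nlinarith
      · rw [Nat.choose_succ_succ]; omega
    · apply hfin j
      · have h0 : (j : ℝ) ≤ a := by exact_mod_cast hj
        nlinarith
      · cases j with
        | zero => simp
        | succ j =>
          rw [Nat.choose_succ_succ, Nat.succ_eq_add_one]; omega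

open Classical in
theorem band_single : ∃ C : ℝ, 0 < C ∧ ∃ n0 : ℕ, 1 ≤ n0 ∧ ∀ t j m : ℕ, n0 ≤ m → m ≤ j → (2 * (j : ℝ) - t) ^ 2 ≤ t →
    Av j (fun x => |Dn j t j x - Dn m t j x|) ≤ C / (m * Real.sqrt t) := by
  obtain ⟨C, hC, n0, hn0, H⟩ := band_le
  obtain ⟨F, hFpos, hbad⟩ : ∃ F : ℝ, 0 < F ∧ ∀ n : ℕ, 10 ^ 3 ≤ n →
      (((Finset.range (2 ^ uu n)).filter (fun y : ℕ => ¬ GG n y)).card : ℝ) / 2 ^ uu n ≤ F / (n : ℝ) ^ 2 :=
    ⟨11 + 2 * (Nat.factorial 20 : ℝ), by positivity, fun n hn => bad_card n hn⟩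
  refine ⟨C + 6 * F, by positivity, n0, by omega, ?_⟩
  intro t j m hm hmj hjt
  have hmpos : (0 : ℝ) < m := by have : 0 < m := by omega
                                 exact_mod_cast this
  have hj3 : 10 ^ 3 ≤ j := by omega
  have hj3r : (10 ^ 3 : ℝ) ≤ j := by exact_mod_cast hj3
  have ht0 : (0 : ℝ) ≤ t := by positivity
  -- size of t
  have hsq : (2 * (j : ℝ) - t) ≤ Real.sqrt t := Real.le_sqrt_of_sq_le hjt
  have hsq2 : -(2 * (j : ℝ) - t) ≤ Real.sqrt t := Real.le_sqrt_of_sq_le (by rw [neg_sq]; exact hjt)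
  have hst := Real.sq_sqrt ht0
  have hst0 := Real.sqrt_nonneg (t : ℝ)
  have ht1000 : (1000 : ℝ) ≤ t := by
    by_contra hc
    push Not at hc
    have : Real.sqrt t < 32 := by
      rw [Real.sqrt_lt' (by norm_num)]; linarith
    linarith
  have hroot : Real.sqrt t ≤ t / 10 := by nlinarith
  have hj55 : (j : ℝ) ≤ 11 / 20 * t := by linarith
  have hjt' : j ≤ t := by
    have : (j : ℝ) ≤ t := by linarith
    exact_mod_cast this
  have hTyp : TypK t j := by
    unfold TypK
    have h1 : Real.sqrt t ≤ (t : ℝ) ^ (11 / 20 : ℝ) := by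
      rw [Real.sqrt_eq_rpow]
      exact Real.rpow_le_rpow_of_exponent_le (by linarith) (by norm_num)
    rw [abs_le]
    constructor <;> linarith
  have htpos : (0 : ℝ) < t := by linarith
  have hstpos : 0 < Real.sqrt t := Real.sqrt_pos.mpr htpos
  refine le_trans (Av_tele t j m hmj) ?_
  have h2 : ∀ n ∈ Finset.Ico m j, Av (n + 1) (fun M => |D (n + 1) t j (fun _ => True) M - D n t j (fun _ => True) M|) ≤
      (C + 6 * F) / Real.sqrt t * (1 / (((n + 1 : ℕ) : ℝ) ^ 2)) := by
    intro n hn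
    rw [Finset.mem_Ico] at hn
    have h3 := H n (by omega) t j (by omega) hjt' hTyp
    have hub := uu_bound (n + 1) (by omega)
    have hubr : (5 : ℝ) * uu (n + 1) ≤ 8 * j := by
      have : 5 * uu (n + 1) ≤ 8 * j := by omega
      exact_mod_cast this
    have hs9 : (t : ℝ) / 9 ≤ (t : ℝ) - uu (n + 1) := by linarith
    have hut : uu (n + 1) ≤ t := by
      have : (uu (n + 1) : ℝ) ≤ t := by linarith
      exact_mod_cast this
    have hs1 : 1 ≤ t - uu (n + 1) := by
      have : (1 : ℝ) ≤ ((t - uu (n + 1) : ℕ) : ℝ) := by rw [Nat.cast_sub hut]; linarith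
      exact_mod_cast this
    have h4 := mass_single (t - uu (n + 1)) (uu (n + 1)) j hs1 (fun y => ¬ GG (n + 1) y)
    rw [Nat.sub_add_cancel hut] at h4
    have h5 := hbad (n + 1) (by omega)
    have h6 : Real.sqrt t / 3 ≤ Real.sqrt ((t - uu (n + 1) : ℕ) : ℝ) := by
      apply Real.le_sqrt_of_sq_le
      rw [Nat.cast_sub hut, div_pow, hst]; linarith
    have hnpos : (0 : ℝ) < ((n + 1 : ℕ) : ℝ) := by positivity
    have h7 : mass t j (fun r => ¬ GG (n + 1) (yy (t - uu (n + 1)) (uu (n + 1)) r)) ≤ 3 * F / Real.sqrt t * (1 / (((n + 1 : ℕ) : ℝ) ^ 2)) := by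
      refine le_trans h4 ?_
      calc _ ≤ F / (((n + 1 : ℕ) : ℝ)) ^ 2 / Real.sqrt ((t - uu (n + 1) : ℕ) : ℝ) := by
            apply div_le_div_of_nonneg_right _ (Real.sqrt_nonneg _)
            refine le_trans (le_of_eq ?_) h5
            congr 2
            exact congrArg Finset.card (Finset.filter_congr_decidable _ _ _)
        _ ≤ F / (((n + 1 : ℕ) : ℝ)) ^ 2 / (Real.sqrt t / 3) := by
            apply div_le_div_of_nonneg_left (by positivity) (by positivity) h6
        _ = _ := by field_simp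
    refine le_trans h3 ?_
    calc _ ≤ C / (((n + 1 : ℕ) : ℝ) ^ 2 * Real.sqrt t) + 2 * (3 * F / Real.sqrt t * (1 / (((n + 1 : ℕ) : ℝ) ^ 2))) := by linarith
      _ = _ := by field_simp; ring
  refine le_trans (Finset.sum_le_sum h2) ?_
  rw [← Finset.mul_sum]
  refine le_trans (mul_le_mul_of_nonneg_left (sum_inv_sq m j (by omega)) (by positivity)) (le_of_eq ?_)
  field_simp

theorem an1 : AN1 := by
  obtain ⟨C, hC, n0, hn0, H⟩ := band_single
  refine ⟨8 * C, by positivity, 1 / 8, by norm_num, max n0 3, by omega, ?_⟩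
  intro t j m hm hmj hjt
  have hj3 : (3 : ℝ) ≤ j := by
    have : 3 ≤ j := by omega
    exact_mod_cast this
  have ht3 : 3 ≤ t := by
    by_contra hc
    have h1 : (t : ℝ) ≤ 2 := by
      have : t ≤ 2 := by omega
      exact_mod_cast this
    have h0 : (0 : ℝ) ≤ t := by positivity
    nlinarith
  have hm1 := mass_lower t j ht3 hjt
  refine ⟨?_, hm1⟩
  refine le_trans (H t j m (by omega) hmj hjt) ?_
  have hmpos : (0 : ℝ) < m := by have : 0 < m := by omega
                                 exact_mod_cast this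
  have htpos : (0 : ℝ) < t := by have : 0 < t := by omega
                                 exact_mod_cast this
  have hstpos : 0 < Real.sqrt t := Real.sqrt_pos.mpr htpos
  calc C / (m * Real.sqrt t) = 8 * C / m * (1 / 8 / Real.sqrt t) := by field_simp
    _ ≤ _ := by gcongr

end Pool.Agent.Helper3.Q1
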