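import Pool.Agent.Helper3.Q1.Words
import Pool.Agent.Helper3.TD.Mix

/-! Statements for the analytic part. -/

namespace Pool.Agent.Helper3.Q1

open Finset Pool.Agent.Helper3.ND Pool.Agent.Helper3.TD

/-- `3 ^ n / 2 ^ t` times the number of `r < 2 ^ t` with `j` odd steps in the first `t` steps of `T` and
`T^[t] r ≡ x` modulo `3 ^ n` -/
noncomputable def Dn (n t j : ℕ) (x : ℤ) : ℝ := D n t j (fun _ => True) x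

/-- recursion for the number of preimages -/
def AN0 : Prop := (∀ (t j : ℕ) (x : ℤ), Dn (j + 1) (t + 1) (j + 1) x =
    1 / 2 * Dn (j + 1) t (j + 1) (2 * x) + (if (3 : ℤ) ∣ 2 * x - 1 then 3 / 2 * Dn j t j ((2 * x - 1) / 3) else 0)) ∧
  (∀ (t : ℕ) (x : ℤ), Dn 0 t 0 x = 1 / 2 ^ t) ∧ (∀ (j : ℕ) (x : ℤ), Dn (j + 1) 0 (j + 1) x = 0)

/-- relative mean absolute difference of densities, for central `(t, j)`, and size of the mass -/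
def AN1 : Prop := ∃ C : ℝ, 0 < C ∧ ∃ c : ℝ, 0 < c ∧ ∃ n0 : ℕ, 1 ≤ n0 ∧ ∀ t j m : ℕ, n0 ≤ m → m ≤ j → (2 * (j : ℝ) - t) ^ 2 ≤ t →
  Av j (fun x => |Dn j t j x - Dn m t j x|) ≤ C / m * mass t j (fun _ => True) ∧
  c / Real.sqrt t ≤ mass t j (fun _ => True)

/-- lower bound for most residues -/
def AN2 : Prop := ∀ η : ℝ, 0 < η → ∃ δ : ℝ, 0 < δ ∧ ∃ k0 : ℕ, ∀ k : ℕ, k0 ≤ k →
  (((range (3 ^ (k + 1))).filter (fun x : ℕ => ¬ (3 : ℤ) ∣ (x : ℤ) ∧ Dn (k + 1) (2 * (k + 1)) (k + 1) (x : ℤ) < δ / Real.sqrt k)).card : ℝ) ≤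
    η * 3 ^ (k + 1)

/-- comparison with the partition function -/
def AN3 : Prop := ∀ k : ℕ, 1 ≤ k → (∀ x : ℤ, ¬ (3 : ℤ) ∣ x → ((3 : ℝ) / 2 ^ 7) ^ k ≤ Zk k x) ∧
  ∃ Low : ℤ → ℝ, (∀ x, 0 ≤ Low x) ∧ (∀ x, Dn (k + 1) (2 * (k + 1)) (k + 1) x ≤ 3 / 2 * Zk k x + Low x) ∧
    Av (k + 1) Low ≤ 100 * (k + 1) * (2 : ℝ) ^ (-(k : ℝ) / 5)

end Pool.Agent.Helper3.Q1
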