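import Pool.Agent.Helper3.Q1.ANdefs

/-! From lower bounds for most residues to the mean of the negative part of `log Z`. -/

namespace Pool.Agent.Helper3.Q1

open Finset Pool.Agent.Helper3.ND Pool.Agent.Helper3.TD Filter Topology

theorem log_const : Real.log ((2 : ℝ) ^ 7 / 3) ≤ 4 := by
  rw [Real.log_le_iff_le_exp (by norm_num)]
  have h1 := Real.exp_one_gt_d9
  have h2 : Real.exp 4 = (Real.exp 1) ^ 4 := by rw [← Real.exp_nat_mul]; norm_num
  rw [h2]
  have h3 : (2.7 : ℝ) ^ 4 ≤ (Real.exp 1) ^ 4 := pow_le_pow_left₀ (by norm_num) (by linarith) 4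
  norm_num at h3 ⊢
  linarith

/-- number of residues where a nonnegative function is large -/
theorem card_markov (n : ℕ) (f : ℤ → ℝ) (hf : ∀ x, 0 ≤ f x) (a : ℝ) (ha : 0 < a) :
    (((range (3 ^ n)).filter (fun x : ℕ => a < f (x : ℤ))).card : ℝ) ≤ Av n f * 3 ^ n / a := by
  have h1 : (((range (3 ^ n)).filter (fun x : ℕ => a < f (x : ℤ))).card : ℝ) * a ≤ ∑ x ∈ range (3 ^ n), f (x : ℤ) := by
    rw [card_eq_sum_ones, sum_filter]
    push_cast
    rw [sum_mul]
    apply sum_le_sum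
    intro x _
    split_ifs with h
    · linarith
    · simpa using hf x
  have h2 : Av n f * 3 ^ n = ∑ x ∈ range (3 ^ n), f (x : ℤ) := by
    unfold Av; field_simp
  rw [le_div_iff₀ ha, h2]; exact h1

theorem low_small (δ η : ℝ) (hδ : 0 < δ) (hη : 0 < η) :
    ∀ᶠ k : ℕ in atTop, 100 * ((k : ℝ) + 1) * (2 : ℝ) ^ (-(k : ℝ) / 5) / (δ / (2 * Real.sqrt k)) ≤ η := by
  obtain ⟨c, hc⟩ : ∃ c : ℝ, c = Real.log 2 / 5 := ⟨_, rfl⟩
  have hc0 : 0 < c := by rw [hc]; have := Real.log_pos (show (1 : ℝ) < 2 by norm_num); positivity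
  have h1 := (Real.tendsto_pow_mul_exp_neg_atTop_nhds_zero 2).comp
    ((tendsto_natCast_atTop_atTop (R := ℝ)).const_mul_atTop hc0)
  have h2 := h1.const_mul (400 / c ^ 2 / δ)
  rw [mul_zero] at h2
  filter_upwards [h2.eventually (gt_mem_nhds hη), eventually_ge_atTop 1] with k hk hk1
  have hk1r : (1 : ℝ) ≤ k := by exact_mod_cast hk1
  have hk0 : (0 : ℝ) < k := by linarith
  simp only [Function.comp] at hk
  refine le_trans ?_ hk.le
  have e1 : (2 : ℝ) ^ (-(k : ℝ) / 5) = Real.exp (-(c * k)) := by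
    rw [Real.rpow_def_of_pos (by norm_num), hc]; congr 1; ring
  have hsk : Real.sqrt k ≤ k := by
    rw [Real.sqrt_le_left hk0.le]; nlinarith
  have hs0 := Real.sqrt_pos.mpr hk0
  have hE := Real.exp_pos (-(c * (k : ℝ)))
  rw [e1]
  calc 100 * ((k : ℝ) + 1) * Real.exp (-(c * k)) / (δ / (2 * Real.sqrt k))
      = 200 * (((k : ℝ) + 1) * Real.sqrt k) * Real.exp (-(c * k)) / δ := by field_simp; ring
    _ ≤ 200 * ((2 * k) * k) * Real.exp (-(c * k)) / δ := by
        gcongr; linarith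
    _ = _ := by field_simp; ring

theorem an_of (h2 : AN2) (h3 : AN3) : AN := by
  classical
  intro ε hε k0
  obtain ⟨η, hη⟩ : ∃ η : ℝ, η = ε / 48 := ⟨_, rfl⟩
  have hη0 : 0 < η := by rw [hη]; positivity
  obtain ⟨δ, hδ, k1, H⟩ := h2 η hη0
  have hev := low_small δ η hδ hη0
  have hev2 : ∀ᶠ k : ℕ in atTop, 18 / (δ * ε) ≤ Real.sqrt k :=
    (Real.tendsto_sqrt_atTop.comp (tendsto_natCast_atTop_atTop (R := ℝ))).eventually_ge_atTop _
  obtain ⟨k, hk⟩ := ((hev.and hev2).and ((eventually_ge_atTop k0).and ((eventually_ge_atTop k1).and (eventually_ge_atTop 1)))).exists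
  obtain ⟨⟨hka, hkb⟩, hkc, hkd, hke⟩ := hk
  refine ⟨k, hkc, hke, ?_⟩
  have hk1r : (1 : ℝ) ≤ k := by exact_mod_cast hke
  have hk0 : (0 : ℝ) < k := by linarith
  have hs0 := Real.sqrt_pos.mpr hk0
  obtain ⟨hZ, Low, hL0, hL1, hL2⟩ := h3 k hke
  have hb1 := H k hkd
  have hb2 := card_markov (k + 1) Low hL0 (δ / (2 * Real.sqrt k)) (by positivity)
  have hb2' : (((range (3 ^ (k + 1))).filter (fun x : ℕ => δ / (2 * Real.sqrt k) < Low (x : ℤ))).card : ℝ) ≤ η * 3 ^ (k + 1) := by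
    refine le_trans hb2 ?_
    calc Av (k + 1) Low * 3 ^ (k + 1) / (δ / (2 * Real.sqrt k))
        ≤ (100 * ((k : ℝ) + 1) * (2 : ℝ) ^ (-(k : ℝ) / 5)) * 3 ^ (k + 1) / (δ / (2 * Real.sqrt k)) := by gcongr
      _ = (100 * ((k : ℝ) + 1) * (2 : ℝ) ^ (-(k : ℝ) / 5) / (δ / (2 * Real.sqrt k))) * 3 ^ (k + 1) := by ring
      _ ≤ _ := by gcongr
  -- pointwise bound
  have hpt : ∀ y ∈ (range (3 ^ (k + 1))).filter (fun y : ℕ => ¬ (3 : ℤ) ∣ (y : ℤ)), max 0 (-Real.log (Zk k (y : ℤ))) ≤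
      3 * Real.sqrt k / δ + 4 * k * ((if (¬ (3 : ℤ) ∣ (y : ℤ) ∧ Dn (k + 1) (2 * (k + 1)) (k + 1) (y : ℤ) < δ / Real.sqrt k) then 1 else 0) +
        (if δ / (2 * Real.sqrt k) < Low (y : ℤ) then 1 else 0)) := by
    intro y hy
    rw [mem_filter] at hy
    have hz := hZ y hy.2
    have hzpos : 0 < Zk k (y : ℤ) := lt_of_lt_of_le (by positivity) hz
    have hp0 : 0 ≤ 3 * Real.sqrt k / δ := by positivity
    have hcrude : max 0 (-Real.log (Zk k (y : ℤ))) ≤ 4 * k := by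
      apply max_le (by positivity)
      have h1 := Real.log_le_log (by positivity) hz
      rw [Real.log_pow] at h1
      have h4 : Real.log ((3 : ℝ) / 2 ^ 7) = - Real.log ((2 : ℝ) ^ 7 / 3) := by
        rw [← Real.log_inv, inv_div]
      rw [h4] at h1
      have := log_const
      nlinarith
    by_cases hA : ¬ (3 : ℤ) ∣ (y : ℤ) ∧ Dn (k + 1) (2 * (k + 1)) (k + 1) (y : ℤ) < δ / Real.sqrt k
    · rw [if_pos hA]
      have : (0 : ℝ) ≤ (if δ / (2 * Real.sqrt k) < Low (y : ℤ) then 1 else 0) := by split_ifs <;> norm_num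
      nlinarith
    · by_cases hB : δ / (2 * Real.sqrt k) < Low (y : ℤ)
      · rw [if_neg hA, if_pos hB]; linarith
      · rw [if_neg hA, if_neg hB]
        push Not at hA hB
        have h5 := hA hy.2
        have h6 := hL1 (y : ℤ)
        have h7 : δ / (3 * Real.sqrt k) ≤ Zk k (y : ℤ) := by
          have e : δ / Real.sqrt k - δ / (2 * Real.sqrt k) = 3 / 2 * (δ / (3 * Real.sqrt k)) := by field_simp; norm_num
          linarith
        have h8 := Real.log_le_log (by positivity) h7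
        have h9 : Real.log (δ / (3 * Real.sqrt k)) = - Real.log (3 * Real.sqrt k / δ) := by
          rw [← Real.log_inv, inv_div]
        rw [h9] at h8
        have h10 := Real.log_le_self (show 0 ≤ 3 * Real.sqrt k / δ by positivity)
        rw [add_zero, mul_zero, add_zero]
        apply max_le hp0
        linarith
  unfold uav
  rw [div_le_iff₀ (by positivity)]
  refine le_trans (sum_le_sum hpt) ?_
  rw [sum_add_distrib, ← mul_sum, sum_add_distrib, sum_const, nsmul_eq_mul]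
  have hc1 : (((range (3 ^ (k + 1))).filter (fun y : ℕ => ¬ (3 : ℤ) ∣ (y : ℤ))).card : ℝ) ≤ 3 ^ (k + 1) := by
    have := card_filter_le (range (3 ^ (k + 1))) (fun y : ℕ => ¬ (3 : ℤ) ∣ (y : ℤ))
    rw [card_range] at this
    exact_mod_cast this
  have hc2 : ∑ y ∈ (range (3 ^ (k + 1))).filter (fun y : ℕ => ¬ (3 : ℤ) ∣ (y : ℤ)),
      (if (¬ (3 : ℤ) ∣ (y : ℤ) ∧ Dn (k + 1) (2 * (k + 1)) (k + 1) (y : ℤ) < δ / Real.sqrt k) then (1 : ℝ) else 0) ≤ η * 3 ^ (k + 1) := by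
    refine le_trans ?_ hb1
    rw [card_eq_sum_ones, sum_filter (fun x : ℕ => ¬ (3 : ℤ) ∣ (x : ℤ) ∧ _)]
    push_cast
    apply sum_le_sum_of_subset_of_nonneg (filter_subset _ _)
    intro y _ _
    split_ifs <;> norm_num
  have hc3 : ∑ y ∈ (range (3 ^ (k + 1))).filter (fun y : ℕ => ¬ (3 : ℤ) ∣ (y : ℤ)),
      (if δ / (2 * Real.sqrt k) < Low (y : ℤ) then (1 : ℝ) else 0) ≤ η * 3 ^ (k + 1) := by
    refine le_trans ?_ hb2'
    rw [card_eq_sum_ones, sum_filter (fun x : ℕ => δ / (2 * Real.sqrt k) < Low (x : ℤ))]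
    push_cast
    apply sum_le_sum_of_subset_of_nonneg (filter_subset _ _)
    intro y _ _
    split_ifs <;> norm_num
  have hq : 3 * Real.sqrt k / δ ≤ ε * k / 6 := by
    rw [div_le_iff₀ (by positivity)] at hkb
    rw [div_le_iff₀ hδ]
    have hsk := Real.sq_sqrt hk0.le
    nlinarith
  have h3p : (0 : ℝ) < 3 ^ (k + 1) := by positivity
  calc _ ≤ (3 : ℝ) ^ (k + 1) * (ε * k / 6) + 4 * k * (η * 3 ^ (k + 1) + η * 3 ^ (k + 1)) := by
        apply add_le_add
        · exact mul_le_mul hc1 hq (by positivity) h3p.le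
        · exact mul_le_mul_of_nonneg_left (add_le_add hc2 hc3) (by positivity)
    _ = _ := by rw [hη, pow_succ]; ring

end Pool.Agent.Helper3.Q1
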