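import Mathlib

/-! Backward 3x+1 chain on the 3-adic units: definitions and statements of the modules
(blueprint: /team-store/q1_blueprint.md). -/

namespace Pool.Agent.Helper3.Q1

open Finset

/-- offset of a word -/
def cw : List ℕ → ℤ
  | [] => 0
  | _ :: w => 2 ^ w.sum + 3 * cw w

/-- compatibility of a word with an integer -/
def cp (w : List ℕ) (x : ℤ) : Prop := (3 : ℤ) ^ w.length ∣ 2 ^ w.sum * x - cw w

/-- end point of a word -/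
def nx (w : List ℕ) (x : ℤ) : ℤ := (2 ^ w.sum * x - cw w) / 3 ^ w.length

/-- a kernel with finite alphabet of words of length `k`; the probability of a word at `x` depends on `x` modulo
`3 ^ (k + 1)` -/
structure Ker where
  k : ℕ
  hk : 1 ≤ k
  A : Finset (List ℕ)
  len : ∀ w ∈ A, w.length = k
  ge1 : ∀ w ∈ A, ∀ a ∈ w, 1 ≤ a
  κ : List ℕ → ℤ → ℝ
  nonneg : ∀ w x, 0 ≤ κ w x
  supp : ∀ w ∈ A, ∀ x, κ w x ≠ 0 → cp w x ∧ ¬ (3 : ℤ) ∣ nx w x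
  per : ∀ w x, κ w (x + 3 ^ (k + 1)) = κ w x
  one : ∀ x, ¬ (3 : ℤ) ∣ x → ∑ w ∈ A, κ w x = 1
  c0 : ℝ
  c0pos : 0 < c0
  ent : ∀ x, ¬ (3 : ℤ) ∣ x → c0 ≤ ∑ w ∈ A, Real.negMulLog (κ w x)

/-- the Markov operator -/
noncomputable def Ker.P (K : Ker) (f : ℤ → ℝ) (x : ℤ) : ℝ := ∑ w ∈ K.A, K.κ w x * f (nx w x)

open Classical in
/-- indicator of the class of `z` modulo `3 ^ (n + 1)` -/
noncomputable def ic (n : ℕ) (z x : ℤ) : ℝ := if (3 : ℤ) ^ (n + 1) ∣ x - z then 1 else 0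

/-- a probability law on the 3-adic units: `p n x` is the mass of `x + 3 ^ (n + 1) Z_3` -/
structure IsLaw (p : ℕ → ℤ → ℝ) : Prop where
  nonneg : ∀ n x, 0 ≤ p n x
  per : ∀ n x, p n (x + 3 ^ (n + 1)) = p n x
  cons : ∀ n x, p n x = p (n + 1) x + p (n + 1) (x + 3 ^ (n + 1)) + p (n + 1) (x + 2 * 3 ^ (n + 1))
  zero : p 0 0 = 0
  one : p 0 1 + p 0 2 = 1

/-- expectation of a function of level `n` -/
noncomputable def EE (p : ℕ → ℤ → ℝ) (n : ℕ) (f : ℤ → ℝ) : ℝ := ∑ x ∈ range (3 ^ (n + 1)), p n (x : ℤ) * f (x : ℤ)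

/-- law after one step of the chain -/
noncomputable def Ker.push (K : Ker) (p : ℕ → ℤ → ℝ) : ℕ → ℤ → ℝ := fun n z => EE p (n + K.k) (K.P (ic n z))

/-- stationary laws -/
def Stat (K : Ker) (p : ℕ → ℤ → ℝ) : Prop := IsLaw p ∧ K.push p = p

/-- entropy at level `n` -/
noncomputable def hh (p : ℕ → ℤ → ℝ) (n : ℕ) : ℝ := ∑ x ∈ range (3 ^ (n + 1)), Real.negMulLog (p n (x : ℤ))

/-- the function `-a log (a / b)` -/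
noncomputable def LL (a b : ℝ) : ℝ := a * Real.log b - a * Real.log a

/-- entropy, times mass, of the next `r` digits in the cell of `x` of level `s` -/
noncomputable def nent (p : ℕ → ℤ → ℝ) (s r : ℕ) (x : ℤ) : ℝ :=
  ∑ v ∈ range (3 ^ r), LL (p (s + r) (x + 3 ^ (s + 1) * (v : ℤ))) (p s x)

/-- (S) one step inequality -/
def StepS : Prop := ∀ (K : Ker) (p : ℕ → ℤ → ℝ), IsLaw p → ∀ s t : ℕ, s ≤ t →
  hh p (t + K.k) - hh p (s + K.k) ≤ hh (K.push p) t - hh (K.push p) s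

instance (r : ℕ) : NeZero (3 ^ r) := ⟨by positivity⟩

/-- convolution -/
noncomputable def cv {r : ℕ} (R Q : ZMod (3 ^ r) → ℝ) (z : ZMod (3 ^ r)) : ℝ := ∑ τ, R τ * Q (z - τ)

/-- total mass times entropy -/
noncomputable def ent {r : ℕ} (Q : ZMod (3 ^ r) → ℝ) : ℝ := ∑ z, LL (Q z) (∑ y, Q y)

/-- reduction modulo `3 ^ k` -/
noncomputable def rd (k : ℕ) {r : ℕ} (R : ZMod (3 ^ r) → ℝ) (j : ℕ) : ℝ := ∑ τ : ZMod (3 ^ r), if τ.val % 3 ^ k = j then R τ else 0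

/-- (CL) finite compactness lemma -/
def CL : Prop := ∀ k r : ℕ, k ≤ r → ∀ ω δ : ℝ, 0 < ω → 0 < δ → ∃ η : ℝ, 0 < η ∧
  ∀ R Q : ZMod (3 ^ r) → ℝ, (∀ τ, 0 ≤ R τ) → (∀ τ, 0 ≤ Q τ) →
    (∑ j ∈ range (3 ^ k), LL (rd k R j) (∑ τ, R τ) ≤ ω * ∑ τ, R τ) ∨
    (((r : ℝ) - k) * Real.log 3 - δ) * (∑ τ, Q τ) ≤ ent Q ∨
    η * ((∑ τ, R τ) * ∑ τ, Q τ) ≤ ent (cv R Q) - (∑ τ, R τ) * ent Q

/-- (I) a positive proportion of cells with almost full entropy -/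
def PartI : Prop := ∀ (K : Ker) (p : ℕ → ℤ → ℝ), Stat K p → ∃ c3 : ℝ, 0 < c3 ∧ ∀ N : ℕ, 1 ≤ N → ∀ δ : ℝ, 0 < δ →
  ∃ m : ℕ, ∃ B : Finset ℕ, B ⊆ range (3 ^ (K.k * m + 1)) ∧ c3 ≤ ∑ x ∈ B, p (K.k * m) (x : ℤ) ∧
    ∀ x ∈ B, ((((N : ℝ) - 1) * K.k * Real.log 3 - δ) * p (K.k * m) (x : ℤ) ≤ nent p (K.k * m) (K.k * N) (x : ℤ))

/-- extreme stationary laws, in the form used -/
def Ext (K : Ker) (p : ℕ → ℤ → ℝ) : Prop := Stat K p ∧ ∀ ρ : ℕ → ℤ → ℝ, Stat K ρ → ∀ M : ℝ,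
  (∀ n x, ρ n x ≤ M * p n x) → ρ = p

/-- (II) for extreme laws the entropy of cells cannot exceed the average -/
def PartII : Prop := ∀ (K : Ker) (p : ℕ → ℤ → ℝ), Ext K p → ∀ β : ℝ,
  (∀ ε : ℝ, 0 < ε → ∃ J : ℕ, 1 ≤ J ∧ hh p (K.k * J) - hh p 0 ≤ J * (β + ε)) →
  ∀ μ : ℝ, 0 < μ → ∀ ε : ℝ, 0 < ε → ∃ N0 : ℕ, ∀ N : ℕ, N0 ≤ N → ∀ m : ℕ, ∀ B : Finset ℕ, B ⊆ range (3 ^ (K.k * m + 1)) →
    μ ≤ ∑ x ∈ B, p (K.k * m) (x : ℤ) →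
    ∑ x ∈ B, nent p (K.k * m) (K.k * N) (x : ℤ) ≤ (∑ x ∈ B, p (K.k * m) (x : ℤ)) * (N * (β + ε))

open Classical in
/-- average over units modulo `3 ^ (k + 1)`, times two -/
noncomputable def uav (k : ℕ) (f : ℤ → ℝ) : ℝ :=
  (∑ y ∈ (range (3 ^ (k + 1))).filter (fun y : ℕ => ¬ (3 : ℤ) ∣ (y : ℤ)), f (y : ℤ)) / 3 ^ k

/-- (ERG) uniform ergodic upper bound -/
def ERG : Prop := ∀ (K : Ker) (ψ : ℤ → ℝ), (∀ x, 0 ≤ ψ x) → (∀ x, ψ (x + 3 ^ (K.k + 1)) = ψ x) →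
  ∀ ε : ℝ, 0 < ε → ∃ L0 : ℕ, ∀ L : ℕ, L0 ≤ L → ∀ x : ℤ, ¬ (3 : ℤ) ∣ x →
    ∑ l ∈ range L, (K.P^[l] ψ) x ≤ L * (uav K.k ψ + ε)

/-- compositions of `d` into `n` positive parts -/
def comps : ℕ → ℕ → Finset (List ℕ)
  | 0, 0 => {[]}
  | 0, _ + 1 => ∅
  | n + 1, d => (range d).biUnion (fun a => (comps n (d - (a + 1))).image (List.cons (a + 1)))

/-- the alphabet -/
def Al (k : ℕ) : Finset (List ℕ) := ((range (7 * k + 1)).filter (fun d => 9 * k ≤ 5 * d)).biUnion (comps k)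

open Classical in
/-- partition function -/
noncomputable def Zk (k : ℕ) (x : ℤ) : ℝ :=
  ∑ w ∈ Al k, if cp w x ∧ ¬ (3 : ℤ) ∣ nx w x then (3 : ℝ) ^ k / 2 ^ w.sum else 0

/-- (AN) the mean of the negative part of `log Z` is `o(k)` -/
def AN : Prop := ∀ ε : ℝ, 0 < ε → ∀ k0 : ℕ, ∃ k : ℕ, k0 ≤ k ∧ 1 ≤ k ∧ uav k (fun x => max 0 (-Real.log (Zk k x))) ≤ ε * k

end Pool.Agent.Helper3.Q1
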