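import Pool.Agent.Helper1.Q1.Erg
import Pool.Agent.Helper50.Q1.CLem
import Pool.Agent.Helper9.Q1.Main
import Pool.Agent.Helper3.Q1.StepS

/-! The uniform ergodic upper bound. -/

namespace Pool.Agent.Helper3.Q1

theorem erg_all : ERG := Pool.Agent.Helper1.Q1.erg_of_partI (Pool.Agent.Helper9.Q1.partI clem stepS)

end Pool.Agent.Helper3.Q1
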