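import Pool.Agent.Helper3.Q1.Words

/-! The function `LL a b = -a log (a / b)`: homogeneity, log-sum inequality. -/

namespace Pool.Agent.Helper3.Q1

open Finset

theorem LL_zero (b : ℝ) : LL 0 b = 0 := by simp [LL]

theorem LL_self (b : ℝ) : LL b b = 0 := by simp [LL]

theorem LL_smul {c a b : ℝ} (hab : b = 0 → a = 0) : LL (c * a) (c * b) = c * LL a b := by
  unfold LL
  by_cases hc : c = 0
  · subst hc; simp
  by_cases hb : b = 0
  · have := hab hb
    subst this; simp
  by_cases ha : a = 0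
  · subst ha; simp
  rw [Real.log_mul hc hb, Real.log_mul hc ha]; ring

theorem LL_nonneg {a b : ℝ} (ha : 0 ≤ a) (hab : a ≤ b) : 0 ≤ LL a b := by
  unfold LL
  rcases ha.eq_or_lt with h | h
  · subst h; simp
  · have := Real.log_le_log h hab
    nlinarith

theorem LL_negMulLog (a b : ℝ) : LL a b = a * Real.log b + Real.negMulLog a := by
  unfold LL Real.negMulLog; ring

/-- pointwise form of the log-sum inequality -/
theorem LL_le {a b A B : ℝ} (ha : 0 ≤ a) (hb : 0 ≤ b) (hab : b = 0 → a = 0) (hA : 0 ≤ A) (hB : 0 < B) (hA0 : A = 0 → a = 0) :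
    LL a b ≤ a * (Real.log B - Real.log A) + b * (A / B) - a := by
  rcases ha.eq_or_lt with h | h
  · subst h
    rw [LL_zero]
    have : 0 ≤ b * (A / B) := by positivity
    linarith
  · have hb' : 0 < b := by
      rcases hb.eq_or_lt with h1 | h1
      · exact absurd (hab h1.symm) h.ne'
      · exact h1
    have hA' : 0 < A := by
      rcases hA.eq_or_lt with h1 | h1
      · exact absurd (hA0 h1.symm) h.ne'
      · exact h1
    have h1 := Real.log_le_sub_one_of_pos (show 0 < b * A / (a * B) by positivity)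
    rw [Real.log_div (by positivity) (by positivity), Real.log_mul hb'.ne' hA'.ne', Real.log_mul h.ne' hB.ne'] at h1
    have h2 := mul_le_mul_of_nonneg_left h1 h.le
    have h3 : a * (b * A / (a * B) - 1) = b * (A / B) - a := by field_simp
    rw [h3] at h2
    unfold LL
    nlinarith

/-- **log-sum inequality** -/
theorem LL_sum {ι : Type*} (s : Finset ι) (a b : ι → ℝ) (ha : ∀ i ∈ s, 0 ≤ a i) (hb : ∀ i ∈ s, 0 ≤ b i)
    (hab : ∀ i ∈ s, b i = 0 → a i = 0) : ∑ i ∈ s, LL (a i) (b i) ≤ LL (∑ i ∈ s, a i) (∑ i ∈ s, b i) := by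
  have hA : 0 ≤ ∑ i ∈ s, a i := sum_nonneg ha
  rcases (sum_nonneg hb).eq_or_lt with hB | hB
  · have h0 : ∀ i ∈ s, b i = 0 := (sum_eq_zero_iff_of_nonneg hb).mp hB.symm
    have h1 : ∀ i ∈ s, a i = 0 := fun i hi => hab i hi (h0 i hi)
    rw [sum_congr rfl (fun i hi => by rw [h1 i hi, LL_zero]), sum_const_zero, sum_congr rfl h1, sum_const_zero, LL_zero]
  · have h2 : ∀ i ∈ s, LL (a i) (b i) ≤ a i * (Real.log (∑ j ∈ s, b j) - Real.log (∑ j ∈ s, a j)) +
        b i * ((∑ j ∈ s, a j) / ∑ j ∈ s, b j) - a i := by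
      intro i hi
      apply LL_le (ha i hi) (hb i hi) (hab i hi) hA hB
      intro h0
      exact (sum_eq_zero_iff_of_nonneg ha).mp h0 i hi
    refine le_trans (sum_le_sum h2) (le_of_eq ?_)
    rw [sum_sub_distrib, sum_add_distrib, ← sum_mul, ← sum_mul]
    unfold LL
    field_simp
    ring

theorem LL_add {a b a' b' : ℝ} (ha : 0 ≤ a) (hb : 0 ≤ b) (hab : b = 0 → a = 0) (ha' : 0 ≤ a') (hb' : 0 ≤ b')
    (hab' : b' = 0 → a' = 0) : LL a b + LL a' b' ≤ LL (a + a') (b + b') := by
  have := LL_sum (univ : Finset Bool) (fun i => if i then a else a') (fun i => if i then b else b')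
    (by intro i _; cases i <;> simpa) (by intro i _; cases i <;> simpa) (by intro i _; cases i <;> simpa)
  simpa using this

/-- entropy is at most the logarithm of the number of atoms -/
theorem sum_LL_le {ι : Type*} (s : Finset ι) (a : ι → ℝ) (ha : ∀ i ∈ s, 0 ≤ a i) :
    ∑ i ∈ s, LL (a i) (∑ j ∈ s, a j) ≤ (∑ j ∈ s, a j) * Real.log s.card := by
  obtain ⟨A, hA⟩ : ∃ A, A = ∑ j ∈ s, a j := ⟨_, rfl⟩
  rw [← hA]
  have hA0 : 0 ≤ A := by rw [hA]; exact sum_nonneg ha
  rcases hA0.eq_or_lt with h | h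
  · have h0 : ∀ i ∈ s, a i = 0 := by
      apply (sum_eq_zero_iff_of_nonneg ha).mp
      rw [← hA, ← h]
    rw [sum_congr rfl (fun i hi => by rw [h0 i hi, LL_zero]), sum_const_zero, ← h]; simp
  · have hs : 0 < (s.card : ℝ) := by
      have : s.Nonempty := by
        rw [nonempty_iff_ne_empty]
        intro h1
        rw [h1, sum_empty] at hA
        linarith
      exact_mod_cast this.card_pos
    have h1 := LL_sum s a (fun _ => A / s.card) ha (fun _ _ => by positivity)
      (fun i _ h1 => absurd h1 (by positivity))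
    have h2 : ∀ i ∈ s, LL (a i) A = LL (a i) (A / s.card) + a i * Real.log s.card := by
      intro i _
      unfold LL
      rw [Real.log_div h.ne' hs.ne']; ring
    rw [sum_congr rfl h2, sum_add_distrib, ← sum_mul, ← hA]
    rw [← hA, sum_const, nsmul_eq_mul, mul_div_cancel₀ _ hs.ne', LL_self] at h1
    linarith

/-- monotonicity in the second argument -/
theorem LL_mono {a b c : ℝ} (ha : 0 ≤ a) (hab : a ≤ b) (hbc : b ≤ c) : LL a b ≤ LL a c := by
  unfold LL
  rcases ha.eq_or_lt with h | h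
  · subst h; simp
  · have := Real.log_le_log (lt_of_lt_of_le h hab) hbc
    nlinarith

/-- chain rule -/
theorem LL_chain {ι : Type*} (s : Finset ι) (a : ι → ℝ) (c : ℝ) :
    ∑ i ∈ s, LL (a i) c = LL (∑ i ∈ s, a i) c + ∑ i ∈ s, LL (a i) (∑ j ∈ s, a j) := by
  simp only [LL, sum_sub_distrib, ← sum_mul]
  ring

end Pool.Agent.Helper3.Q1
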