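import Pool.Agent.Helper3.Q1.Res

/-! Laws, expectations, the Markov operator and the push forward. -/

namespace Pool.Agent.Helper3.Q1

open Finset

section EE
variable {p : ℕ → ℤ → ℝ}

theorem IsLaw.pr (hp : IsLaw p) (n : ℕ) : Pr n (p n) := hp.per n

theorem EE_congr {n : ℕ} {f g : ℤ → ℝ} (h : ∀ x, p n x ≠ 0 → f x = g x) : EE p n f = EE p n g := by
  unfold EE
  apply sum_congr rfl
  intro x _
  by_cases h0 : p n (x : ℤ) = 0
  · rw [h0, zero_mul, zero_mul]
  · rw [h _ h0]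

theorem EE_succ (hp : IsLaw p) {n : ℕ} {f : ℤ → ℝ} (hf : Pr n f) : EE p (n + 1) f = EE p n f := by
  unfold EE
  rw [sum_level n 1 (fun x => p (n + 1) x * f x)]
  apply sum_congr rfl
  intro x _
  rw [hp.cons n x, show 3 ^ 1 = 2 + 1 by norm_num, sum_range_succ, sum_range_succ, sum_range_one]
  have h0 : f ((x : ℤ) + 3 ^ (n + 1) * ((0 : ℕ) : ℤ)) = f x := hf.mul _ _
  have h1 : f ((x : ℤ) + 3 ^ (n + 1) * ((1 : ℕ) : ℤ)) = f x := hf.mul _ _
  have h2 : f ((x : ℤ) + 3 ^ (n + 1) * ((2 : ℕ) : ℤ)) = f x := hf.mul _ _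
  rw [h0, h1, h2]
  push_cast
  rw [show (x : ℤ) + 3 ^ (n + 1) * 0 = x by ring, show (x : ℤ) + 3 ^ (n + 1) * 1 = x + 3 ^ (n + 1) by ring,
    show (x : ℤ) + 3 ^ (n + 1) * 2 = x + 2 * 3 ^ (n + 1) by ring]
  ring

theorem EE_le_level (hp : IsLaw p) {n m : ℕ} {f : ℤ → ℝ} (hf : Pr n f) (hnm : n ≤ m) : EE p m f = EE p n f := by
  induction m, hnm using Nat.le_induction with
  | base => rfl
  | succ m hm ih => rw [EE_succ hp (hf.le hm), ih]

theorem EE_add (n : ℕ) (f g : ℤ → ℝ) : EE p n (fun x => f x + g x) = EE p n f + EE p n g := by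
  unfold EE; rw [← sum_add_distrib]; apply sum_congr rfl; intro x _; ring

theorem EE_smul (n : ℕ) (c : ℝ) (f : ℤ → ℝ) : EE p n (fun x => c * f x) = c * EE p n f := by
  unfold EE; rw [mul_sum]; apply sum_congr rfl; intro x _; ring

theorem EE_sub (n : ℕ) (f g : ℤ → ℝ) : EE p n (fun x => f x - g x) = EE p n f - EE p n g := by
  unfold EE; rw [← sum_sub_distrib]; apply sum_congr rfl; intro x _; ring

theorem EE_sum {ι : Type*} (n : ℕ) (s : Finset ι) (f : ι → ℤ → ℝ) :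
    EE p n (fun x => ∑ i ∈ s, f i x) = ∑ i ∈ s, EE p n (f i) := by
  unfold EE; rw [sum_comm]; apply sum_congr rfl; intro x _; rw [mul_sum]

theorem EE_mono (hp : IsLaw p) {n : ℕ} {f g : ℤ → ℝ} (h : ∀ x, p n x ≠ 0 → f x ≤ g x) : EE p n f ≤ EE p n g := by
  unfold EE
  apply sum_le_sum
  intro x _
  by_cases h0 : p n (x : ℤ) = 0
  · rw [h0, zero_mul, zero_mul]
  · exact mul_le_mul_of_nonneg_left (h _ h0) (hp.nonneg _ _)

theorem EE_one (hp : IsLaw p) (n : ℕ) : EE p n (fun _ => 1) = 1 := by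
  rw [EE_le_level hp (n := 0) (fun x => rfl) (Nat.zero_le n)]
  unfold EE
  rw [show 3 ^ (0 + 1) = 2 + 1 by norm_num, sum_range_succ, sum_range_succ, sum_range_one]
  have h0 := hp.zero
  have h1 := hp.one
  push_cast
  rw [h0]
  linarith

theorem EE_const (hp : IsLaw p) (n : ℕ) (c : ℝ) : EE p n (fun _ => c) = c := by
  have := EE_smul (p := p) n c (fun _ => 1)
  rw [EE_one hp, mul_one] at this
  simpa using this

theorem EE_ic (hp : IsLaw p) (n : ℕ) (z : ℤ) : EE p n (ic n z) = p n z := by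
  unfold EE
  have h1 : ∀ x : ℤ, p n x * ic n z x = p n z * ic n x z := fun x => by
    rw [mul_comm, ic_mul n z x (hp.pr n), ic_comm, mul_comm]
  rw [sum_congr rfl (fun (x : ℕ) _ => h1 (x : ℤ)), ← mul_sum, sum_ic, mul_one]

/-- mass of a coarse cell -/
theorem EE_ic' (hp : IsLaw p) {n m : ℕ} (hnm : n ≤ m) (z : ℤ) : EE p m (ic n z) = p n z := by
  rw [EE_le_level hp (ic_pr n z) hnm, EE_ic hp]

theorem law_sum (hp : IsLaw p) (s r : ℕ) (x : ℤ) : ∑ v ∈ range (3 ^ r), p (s + r) (x + 3 ^ (s + 1) * (v : ℤ)) = p s x := by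
  have h1 := EE_ic' hp (Nat.le_add_right s r) x
  unfold EE at h1
  rw [sum_level s r (fun y => p (s + r) y * ic s x y)] at h1
  rw [← h1]
  have hper : Pr s (fun x => ∑ v ∈ range (3 ^ r), p (s + r) (x + 3 ^ (s + 1) * (v : ℤ))) := by
    intro y
    simp only
    have h2 := sum_aff r (f := fun v => p (s + r + 1) (y + 3 ^ (s + 1) * v))
    have h3 : ∀ c : ℤ, ∑ v ∈ range (3 ^ r), p (s + r) (y + 3 ^ (s + 1) * (c + (v : ℤ))) = ∑ v ∈ range (3 ^ r), p (s + r) (y + 3 ^ (s + 1) * (v : ℤ)) := by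
      intro c
      rcases Nat.eq_zero_or_pos r with hr | hr
      · subst hr
        simp only [pow_zero, sum_range_one, Nat.cast_zero, add_zero, mul_zero]
        exact (hp.pr s).mul y c
      · obtain ⟨r', rfl⟩ := Nat.exists_eq_add_of_le' hr
        have h4 := sum_aff r' (f := fun v => p (s + (r' + 1)) (y + 3 ^ (s + 1) * v)) (by
          intro v
          simp only
          rw [show y + 3 ^ (s + 1) * (v + 3 ^ (r' + 1)) = (y + 3 ^ (s + 1) * v) + 3 ^ (s + (r' + 1) + 1) by ring]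
          exact hp.per _ _) 1 c (by norm_num)
        simpa using h4
    have h5 := h3 1
    rw [← h5]
    apply sum_congr rfl
    intro v _
    congr 1; ring
  have h6 : ∀ y : ℤ, ∑ v ∈ range (3 ^ r), p (s + r) (y + 3 ^ (s + 1) * (v : ℤ)) * ic s x (y + 3 ^ (s + 1) * (v : ℤ)) =
      ic s x y * ∑ v ∈ range (3 ^ r), p (s + r) (y + 3 ^ (s + 1) * (v : ℤ)) := by
    intro y
    rw [mul_sum]
    apply sum_congr rfl
    intro v _
    rw [(ic_pr s x).mul, mul_comm]
  have h7 : ∀ y : ℤ, ic s x y * ∑ v ∈ range (3 ^ r), p (s + r) (y + 3 ^ (s + 1) * (v : ℤ)) =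
      (∑ v ∈ range (3 ^ r), p (s + r) (x + 3 ^ (s + 1) * (v : ℤ))) * ic s y x := by
    intro y
    have := ic_mul s x y hper
    rw [this, ic_comm, mul_comm]
  rw [sum_congr rfl (fun (y : ℕ) _ => (h6 (y : ℤ)).trans (h7 (y : ℤ))), ← mul_sum, sum_ic, mul_one]

theorem law_le (hp : IsLaw p) (s r : ℕ) (x : ℤ) : p (s + r) x ≤ p s x := by
  rw [← law_sum hp s r x]
  have : p (s + r) (x + 3 ^ (s + 1) * ((0 : ℕ) : ℤ)) ≤ ∑ v ∈ range (3 ^ r), p (s + r) (x + 3 ^ (s + 1) * (v : ℤ)) :=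
    single_le_sum (f := fun v : ℕ => p (s + r) (x + 3 ^ (s + 1) * (v : ℤ))) (fun v _ => hp.nonneg _ _) (mem_range.mpr (by positivity))
  simpa using this

theorem law_le' (hp : IsLaw p) {s t : ℕ} (h : s ≤ t) (x : ℤ) : p t x ≤ p s x := by
  obtain ⟨r, rfl⟩ := Nat.exists_eq_add_of_le h
  exact law_le hp s r x

theorem law_zero (hp : IsLaw p) (n : ℕ) {x : ℤ} (hx : (3 : ℤ) ∣ x) : p n x = 0 := by
  have h1 := law_le' hp (Nat.zero_le n) x
  have h2 : p 0 x = p 0 0 := (hp.pr 0).dvd (by simpa using hx)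
  rw [h2, hp.zero] at h1
  exact le_antisymm h1 (hp.nonneg _ _)

theorem law_unit (hp : IsLaw p) {n : ℕ} {x : ℤ} (h : p n x ≠ 0) : ¬ (3 : ℤ) ∣ x := fun hx => h (law_zero hp n hx)

theorem law_le_one (hp : IsLaw p) (n : ℕ) (x : ℤ) : p n x ≤ 1 := by
  rw [← EE_ic hp n x, ← EE_one hp n]
  exact EE_mono hp (fun y _ => ic_le_one n x y)

theorem hh_eq (hp : IsLaw p) {s t : ℕ} (h : s ≤ t) :
    hh p t - hh p s = ∑ x ∈ range (3 ^ (t + 1)), LL (p t (x : ℤ)) (p s (x : ℤ)) := by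
  have h1 : ∑ x ∈ range (3 ^ (t + 1)), LL (p t (x : ℤ)) (p s (x : ℤ)) = EE p t (fun x => Real.log (p s x)) + hh p t := by
    unfold EE hh
    rw [← sum_add_distrib]
    apply sum_congr rfl
    intro x _
    rw [LL_negMulLog]
  have h2 : EE p t (fun x => Real.log (p s x)) = - hh p s := by
    rw [EE_le_level hp ((hp.pr s).comp Real.log) h]
    unfold EE hh Real.negMulLog
    rw [← sum_neg_distrib]
    apply sum_congr rfl
    intro x _
    ring
  rw [h1, h2]; ring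

theorem hh_nent (hp : IsLaw p) (s r : ℕ) : hh p (s + r) - hh p s = ∑ x ∈ range (3 ^ (s + 1)), nent p s r (x : ℤ) := by
  rw [hh_eq hp (Nat.le_add_right s r), sum_level s r (fun x => LL (p (s + r) x) (p s x))]
  apply sum_congr rfl
  intro x _
  unfold nent
  apply sum_congr rfl
  intro v _
  rw [(hp.pr s).mul]

theorem nent_nonneg (hp : IsLaw p) (s r : ℕ) (x : ℤ) : 0 ≤ nent p s r x := by
  unfold nent
  apply sum_nonneg
  intro v _
  apply LL_nonneg (hp.nonneg _ _)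
  calc p (s + r) (x + 3 ^ (s + 1) * (v : ℤ)) ≤ p s (x + 3 ^ (s + 1) * (v : ℤ)) := law_le hp _ _ _
    _ = p s x := (hp.pr s).mul _ _

theorem nent_le (hp : IsLaw p) (s r : ℕ) (x : ℤ) : nent p s r x ≤ p s x * (r * Real.log 3) := by
  unfold nent
  have h := sum_LL_le (range (3 ^ r)) (fun v : ℕ => p (s + r) (x + 3 ^ (s + 1) * (v : ℤ))) (fun _ _ => hp.nonneg _ _)
  rw [law_sum hp] at h
  rw [card_range] at h
  push_cast at h
  rw [Real.log_pow] at h
  exact h

theorem hh_mono (hp : IsLaw p) {s t : ℕ} (h : s ≤ t) : hh p s ≤ hh p t := by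
  obtain ⟨r, rfl⟩ := Nat.exists_eq_add_of_le h
  have := hh_nent hp s r
  have h2 : 0 ≤ ∑ x ∈ range (3 ^ (s + 1)), nent p s r (x : ℤ) := sum_nonneg (fun x _ => nent_nonneg hp s r _)
  linarith

theorem hh_diff_le (hp : IsLaw p) (s r : ℕ) : hh p (s + r) - hh p s ≤ r * Real.log 3 := by
  rw [hh_nent hp]
  refine le_trans (sum_le_sum (fun x _ => nent_le hp s r (x : ℤ))) ?_
  rw [← sum_mul]
  have : ∑ x ∈ range (3 ^ (s + 1)), p s (x : ℤ) = 1 := by
    have := EE_one hp s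
    unfold EE at this
    simpa using this
  rw [this, one_mul]

end EE

section P
variable (K : Ker)

theorem Ker.κ_pr (w : List ℕ) : Pr K.k (K.κ w) := K.per w

theorem Ker.P_nonneg {f : ℤ → ℝ} (h : ∀ x, 0 ≤ f x) (x : ℤ) : 0 ≤ K.P f x :=
  sum_nonneg (fun w _ => mul_nonneg (K.nonneg w x) (h _))

theorem Ker.P_mono {f g : ℤ → ℝ} (h : ∀ x, f x ≤ g x) (x : ℤ) : K.P f x ≤ K.P g x :=
  sum_le_sum (fun w _ => mul_le_mul_of_nonneg_left (h _) (K.nonneg w x))

/-- monotone using only units -/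
theorem Ker.P_mono' {f g : ℤ → ℝ} (h : ∀ x, ¬ (3 : ℤ) ∣ x → f x ≤ g x) (x : ℤ) : K.P f x ≤ K.P g x := by
  apply sum_le_sum
  intro w hw
  by_cases h0 : K.κ w x = 0
  · rw [h0, zero_mul, zero_mul]
  · exact mul_le_mul_of_nonneg_left (h _ (K.supp w hw x h0).2) (K.nonneg w x)

theorem Ker.P_congr {f g : ℤ → ℝ} (h : ∀ x, ¬ (3 : ℤ) ∣ x → f x = g x) (x : ℤ) : K.P f x = K.P g x :=
  le_antisymm (K.P_mono' (fun y hy => (h y hy).le) x) (K.P_mono' (fun y hy => (h y hy).ge) x)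

theorem Ker.P_add (f g : ℤ → ℝ) (x : ℤ) : K.P (fun y => f y + g y) x = K.P f x + K.P g x := by
  unfold Ker.P; rw [← sum_add_distrib]; apply sum_congr rfl; intro w _; ring

theorem Ker.P_smul (c : ℝ) (f : ℤ → ℝ) (x : ℤ) : K.P (fun y => c * f y) x = c * K.P f x := by
  unfold Ker.P; rw [mul_sum]; apply sum_congr rfl; intro w _; ring

theorem Ker.P_sum {ι : Type*} (s : Finset ι) (f : ι → ℤ → ℝ) (x : ℤ) :
    K.P (fun y => ∑ i ∈ s, f i y) x = ∑ i ∈ s, K.P (f i) x := by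
  unfold Ker.P; rw [sum_comm]; apply sum_congr rfl; intro w _; rw [mul_sum]

theorem Ker.P_const (c : ℝ) {x : ℤ} (hx : ¬ (3 : ℤ) ∣ x) : K.P (fun _ => c) x = c := by
  unfold Ker.P; rw [← sum_mul, K.one x hx, one_mul]

/-- the operator raises the level by `k` -/
theorem Ker.P_pr {n : ℕ} {f : ℤ → ℝ} (h : Pr n f) : Pr (n + K.k) (K.P f) := by
  intro x
  unfold Ker.P
  apply sum_congr rfl
  intro w hw
  have h1 : K.κ w (x + 3 ^ (n + K.k + 1)) = K.κ w x := (K.κ_pr w).le (Nat.le_add_left _ _) x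
  rw [h1]
  by_cases h0 : K.κ w x = 0
  · rw [h0, zero_mul, zero_mul]
  · congr 1
    have h2 := nx_shift (K.supp w hw x h0).1 (3 ^ (n + 1))
    rw [K.len w hw] at h2
    rw [show x + 3 ^ (n + K.k + 1) = x + 3 ^ K.k * 3 ^ (n + 1) by ring, h2, mul_comm (2 ^ w.sum : ℤ)]
    exact h.mul _ _

theorem Ker.P_iter_pr {n : ℕ} {f : ℤ → ℝ} (h : Pr n f) (l : ℕ) : Pr (n + K.k * l) (K.P^[l] f) := by
  induction l with
  | zero => simpa using h
  | succ l ih =>
    rw [Function.iterate_succ_apply', Nat.mul_succ, ← add_assoc]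
    exact K.P_pr ih

theorem Ker.P_iter_nonneg {f : ℤ → ℝ} (h : ∀ x, 0 ≤ f x) (l : ℕ) (x : ℤ) : 0 ≤ (K.P^[l] f) x := by
  induction l generalizing x with
  | zero => exact h x
  | succ l ih => rw [Function.iterate_succ_apply']; exact K.P_nonneg ih x

theorem Ker.P_iter_le {f : ℤ → ℝ} {c : ℝ} (h : ∀ x, ¬ (3 : ℤ) ∣ x → f x ≤ c) (l : ℕ) {x : ℤ} (hx : ¬ (3 : ℤ) ∣ x) :
    (K.P^[l] f) x ≤ c := by
  induction l generalizing x with
  | zero => exact h x hx
  | succ l ih =>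
    rw [Function.iterate_succ_apply', ← K.P_const c hx]
    exact K.P_mono' (fun y hy => ih hy) x

/-- expectation after one step -/
theorem Ker.EE_push {p : ℕ → ℤ → ℝ} {n : ℕ} {f : ℤ → ℝ} (hf : Pr n f) :
    EE (K.push p) n f = EE p (n + K.k) (K.P f) := by
  have h1 : ∀ x, K.P f x = ∑ z ∈ range (3 ^ (n + 1)), f (z : ℤ) * K.P (ic n (z : ℤ)) x := by
    intro x
    have e : f = fun y => ∑ z ∈ range (3 ^ (n + 1)), f (z : ℤ) * ic n (z : ℤ) y := funext (fun y => expand n y hf)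
    conv_lhs => rw [e]
    rw [K.P_sum]
    apply sum_congr rfl
    intro z _
    rw [K.P_smul]
  rw [show K.P f = fun x => ∑ z ∈ range (3 ^ (n + 1)), f (z : ℤ) * K.P (ic n (z : ℤ)) x from funext h1, EE_sum]
  unfold EE Ker.push
  apply sum_congr rfl
  intro z _
  unfold EE
  rw [sum_mul]
  apply sum_congr rfl
  intro x _
  ring

theorem Ker.push_law {p : ℕ → ℤ → ℝ} (hp : IsLaw p) : IsLaw (K.push p) where
  nonneg n x := by
    unfold Ker.push
    have := EE_mono (p := p) hp (n := n + K.k) (f := fun _ => 0) (g := K.P (ic n x)) (fun y _ => K.P_nonneg (ic_nonneg n x) y)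
    rwa [EE_const hp] at this
  per n x := by
    unfold Ker.push
    congr 2
    funext y
    rw [ic_comm, ic_pr n y x, ic_comm]
  cons n x := by
    unfold Ker.push
    have h1 : ∀ y, ic n x y = ic (n + 1) x y + ic (n + 1) (x + 3 ^ (n + 1)) y + ic (n + 1) (x + 2 * 3 ^ (n + 1)) y := by
      intro y
      have := sum_ic_shift n 1 y x 1 (by norm_num)
      rw [show 3 ^ 1 = 2 + 1 by norm_num, sum_range_succ, sum_range_succ, sum_range_one] at this
      rw [ic_comm n x y, ← this, ic_comm _ y, ic_comm _ y, ic_comm _ y]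
      push_cast
      rw [show x + 1 * (3 ^ (n + 1) * 0) = x by ring, show x + 1 * (3 ^ (n + 1) * 1) = x + 3 ^ (n + 1) by ring,
        show x + 1 * (3 ^ (n + 1) * 2) = x + 2 * 3 ^ (n + 1) by ring]
    have h2 : ∀ y, K.P (ic n x) y = K.P (ic (n + 1) x) y + K.P (ic (n + 1) (x + 3 ^ (n + 1))) y +
        K.P (ic (n + 1) (x + 2 * 3 ^ (n + 1))) y := by
      intro y
      rw [show ic n x = fun y => (ic (n + 1) x y + ic (n + 1) (x + 3 ^ (n + 1)) y) + ic (n + 1) (x + 2 * 3 ^ (n + 1)) y from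
        funext h1, K.P_add, K.P_add]
    have h3 := EE_le_level hp (K.P_pr (ic_pr n x)) (show n + K.k ≤ n + 1 + K.k by omega)
    rw [← h3, show K.P (ic n x) = fun y => (K.P (ic (n + 1) x) y + K.P (ic (n + 1) (x + 3 ^ (n + 1))) y) +
        K.P (ic (n + 1) (x + 2 * 3 ^ (n + 1))) y from funext h2, EE_add, EE_add]
  zero := by
    unfold Ker.push
    have h1 : ∀ x, K.P (ic 0 0) x = 0 := by
      intro x
      have := K.P_congr (f := ic 0 0) (g := fun _ => 0) (fun y hy => by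
        unfold ic
        rw [if_neg]
        simpa using hy) x
      rw [this]
      unfold Ker.P; simp
    rw [EE_congr (g := fun _ => 0) (fun x _ => h1 x), EE_const hp]
  one := by
    have h := K.EE_push (p := p) (n := 0) (f := fun _ => 1) (fun _ => rfl)
    have h2 : EE p (0 + K.k) (K.P (fun _ => 1)) = 1 := by
      rw [EE_congr (g := fun _ => 1) (fun x hx => K.P_const 1 (law_unit hp hx)), EE_one hp]
    rw [h2] at h
    unfold EE at h
    rw [show 3 ^ (0 + 1) = 2 + 1 by norm_num, sum_range_succ, sum_range_succ, sum_range_one] at h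
    have h0 : K.push p 0 0 = 0 := by
      unfold Ker.push
      have h1 : ∀ x, K.P (ic 0 0) x = 0 := by
        intro x
        have := K.P_congr (f := ic 0 0) (g := fun _ => 0) (fun y hy => by
          unfold ic
          rw [if_neg]
          simpa using hy) x
        rw [this]
        unfold Ker.P; simp
      rw [EE_congr (g := fun _ => 0) (fun x _ => h1 x), EE_const hp]
    push_cast at h
    rw [h0] at h
    linarith

theorem Ker.push_iter_law {p : ℕ → ℤ → ℝ} (hp : IsLaw p) (l : ℕ) : IsLaw (K.push^[l] p) := by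
  induction l with
  | zero => exact hp
  | succ l ih => rw [Function.iterate_succ_apply']; exact K.push_law ih

/-- expectation after `l` steps -/
theorem Ker.EE_iter {p : ℕ → ℤ → ℝ} {n : ℕ} {f : ℤ → ℝ} (hf : Pr n f) (l : ℕ) :
    EE (K.push^[l] p) n f = EE p (n + K.k * l) (K.P^[l] f) := by
  induction l generalizing n f with
  | zero => simp
  | succ l ih =>
    rw [Function.iterate_succ_apply', K.EE_push hf, ih (K.P_pr hf), Function.iterate_succ_apply]
    congr 1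
    ring

theorem Stat.EE {p : ℕ → ℤ → ℝ} (h : Stat K p) {n : ℕ} {f : ℤ → ℝ} (hf : Pr n f) (l : ℕ) :
    Q1.EE p n f = Q1.EE p (n + K.k * l) (K.P^[l] f) := by
  rw [← K.EE_iter hf l]
  have : K.push^[l] p = p := Function.iterate_fixed h.2 l
  rw [this]

end P

end Pool.Agent.Helper3.Q1
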