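import Pool.Agent.Helper3.Q1.LLog

/-! Sums over residues modulo powers of three. -/

namespace Pool.Agent.Helper3.Q1

open Finset

/-- functions of level `n` -/
def Pr (n : ℕ) (f : ℤ → ℝ) : Prop := ∀ x, f (x + 3 ^ (n + 1)) = f x

theorem Pr.mul {n : ℕ} {f : ℤ → ℝ} (h : Pr n f) (x m : ℤ) : f (x + 3 ^ (n + 1) * m) = f x := by
  induction m using Int.induction_on with
  | zero => simp
  | succ i ih =>
    have := h (x + 3 ^ (n + 1) * i)
    rw [← ih, ← this]; congr 1; ring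
  | pred i ih =>
    have := h (x + 3 ^ (n + 1) * (-(i : ℤ) - 1))
    rw [← ih, ← this]; congr 1; ring

theorem Pr.dvd {n : ℕ} {f : ℤ → ℝ} (h : Pr n f) {x y : ℤ} (hd : (3 : ℤ) ^ (n + 1) ∣ x - y) : f x = f y := by
  obtain ⟨m, hm⟩ := hd
  have := h.mul y m
  rw [← this]; congr 1; linarith

theorem Pr.le {n m : ℕ} {f : ℤ → ℝ} (h : Pr n f) (hnm : n ≤ m) : Pr m f := by
  intro x
  obtain ⟨d, rfl⟩ := Nat.exists_eq_add_of_le hnm
  rw [show (3 : ℤ) ^ (n + d + 1) = 3 ^ (n + 1) * 3 ^ d by rw [← pow_add]; congr 1; ring]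
  exact h.mul x _

theorem Pr.comp {n : ℕ} {f : ℤ → ℝ} (h : Pr n f) (g : ℝ → ℝ) : Pr n (fun x => g (f x)) := fun x => by
  simp only [h x]

theorem Pr.mul' {n : ℕ} {f g : ℤ → ℝ} (hf : Pr n f) (hg : Pr n g) : Pr n (fun x => f x * g x) := fun x => by
  simp only [hf x, hg x]

/-- splitting a range into low and high digits -/
theorem sum_digits {M : Type*} [AddCommMonoid M] (a b : ℕ) (f : ℕ → M) :
    ∑ x ∈ range (a * b), f x = ∑ i ∈ range a, ∑ v ∈ range b, f (i + a * v) := by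
  rw [sum_comm]
  induction b with
  | zero => simp
  | succ b ih =>
    rw [Nat.mul_succ, sum_range_add, ih, sum_range_succ]
    congr 1
    apply sum_congr rfl
    intro i _
    rw [add_comm]

theorem sum_level {M : Type*} [AddCommMonoid M] (s r : ℕ) (f : ℤ → M) :
    ∑ x ∈ range (3 ^ (s + r + 1)), f (x : ℤ) = ∑ x ∈ range (3 ^ (s + 1)), ∑ v ∈ range (3 ^ r), f ((x : ℤ) + 3 ^ (s + 1) * (v : ℤ)) := by
  rw [show 3 ^ (s + r + 1) = 3 ^ (s + 1) * 3 ^ r by rw [← pow_add]; congr 1; ring, sum_digits]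
  apply sum_congr rfl; intro i _
  apply sum_congr rfl; intro v _
  push_cast; rfl

/-- exactly one residue -/
theorem one_res (r : ℕ) (q u : ℤ) (hu : ¬ (3 : ℤ) ∣ u) :
    ∃ v0 ∈ range (3 ^ r), ∀ v ∈ range (3 ^ r), ((3 : ℤ) ^ r ∣ q + u * (v : ℤ) ↔ v = v0) := by
  have hp : (0 : ℤ) < 3 ^ r := by positivity
  have hco : IsCoprime u (3 ^ r) := by
    apply IsCoprime.pow_right
    rw [isCoprime_comm]
    exact (Int.prime_three.coprime_iff_not_dvd).mpr hu
  obtain ⟨a, b, hab⟩ := hco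
  obtain ⟨v0, hv0⟩ : ∃ v0 : ℕ, (v0 : ℤ) = (-(q * a)) % 3 ^ r := ⟨((-(q * a)) % 3 ^ r).toNat, Int.toNat_of_nonneg (Int.emod_nonneg _ hp.ne')⟩
  have hv0lt : v0 < 3 ^ r := by
    have := Int.emod_lt_of_pos (-(q * a)) hp
    rw [← hv0] at this
    exact_mod_cast this
  have h0 : (3 : ℤ) ^ r ∣ q + u * (v0 : ℤ) := by
    have h1 : (3 : ℤ) ^ r ∣ (v0 : ℤ) - (-(q * a)) := by rw [hv0, dvd_sub_comm]; exact Int.dvd_self_sub_emod
    have h2 : q + u * (v0 : ℤ) = u * ((v0 : ℤ) - (-(q * a))) + 3 ^ r * (q * b) := by linear_combination (-q) * hab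
    rw [h2]
    exact dvd_add (Dvd.dvd.mul_left h1 _) (Dvd.intro _ rfl)
  refine ⟨v0, mem_range.mpr hv0lt, ?_⟩
  intro v hv
  constructor
  · intro h
    have h1 := dvd_sub h h0
    rw [show q + u * (v : ℤ) - (q + u * (v0 : ℤ)) = u * ((v : ℤ) - v0) by ring] at h1
    have h2 : (3 : ℤ) ^ r ∣ (v : ℤ) - v0 := by
      apply IsCoprime.dvd_of_dvd_mul_left _ h1
      exact ⟨b, a, by linarith⟩
    have h3 : |(v : ℤ) - v0| < 3 ^ r := by
      rw [mem_range] at hv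
      have a1 : (v : ℤ) < 3 ^ r := by exact_mod_cast hv
      have a2 : (v0 : ℤ) < 3 ^ r := by exact_mod_cast hv0lt
      rw [abs_lt]; constructor <;> linarith [Int.natCast_nonneg v, Int.natCast_nonneg v0]
    have := Int.eq_zero_of_abs_lt_dvd h2 h3
    omega
  · rintro rfl
    exact h0

theorem sum_ic (n : ℕ) (x : ℤ) : ∑ z ∈ range (3 ^ (n + 1)), ic n (z : ℤ) x = 1 := by
  classical
  obtain ⟨v0, hv0, h⟩ := one_res (n + 1) x (-1) (by norm_num)
  rw [sum_eq_single_of_mem v0 hv0]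
  · unfold ic
    rw [if_pos]
    have := (h v0 hv0).mpr rfl
    rwa [show x + -1 * (v0 : ℤ) = x - v0 by ring] at this
  · intro v hv hne
    unfold ic
    rw [if_neg]
    intro hd
    apply hne
    apply (h v hv).mp
    rwa [show x + -1 * (v : ℤ) = x - v by ring]

theorem sum_ic_shift (s r : ℕ) (z y u : ℤ) (hu : ¬ (3 : ℤ) ∣ u) :
    ∑ v ∈ range (3 ^ r), ic (s + r) z (y + u * (3 ^ (s + 1) * (v : ℤ))) = ic s z y := by
  classical
  by_cases hd : (3 : ℤ) ^ (s + 1) ∣ y - z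
  · obtain ⟨q, hq⟩ := hd
    obtain ⟨v0, hv0, h⟩ := one_res r q u hu
    have key : ∀ v : ℕ, ((3 : ℤ) ^ (s + r + 1) ∣ y + u * (3 ^ (s + 1) * (v : ℤ)) - z ↔ (3 : ℤ) ^ r ∣ q + u * (v : ℤ)) := by
      intro v
      rw [show y + u * (3 ^ (s + 1) * (v : ℤ)) - z = 3 ^ (s + 1) * (q + u * (v : ℤ)) by linear_combination hq,
        show (3 : ℤ) ^ (s + r + 1) = 3 ^ (s + 1) * 3 ^ r by rw [← pow_add]; congr 1; ring]
      exact mul_dvd_mul_iff_left (by positivity)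
    rw [sum_eq_single_of_mem v0 hv0]
    · unfold ic
      rw [if_pos ((key v0).mpr ((h v0 hv0).mpr rfl)), if_pos (by rw [hq]; exact Dvd.intro _ rfl)]
    · intro v hv hne
      unfold ic
      rw [if_neg]
      intro hd
      exact hne ((h v hv).mp ((key v).mp hd))
  · unfold ic
    rw [if_neg hd]
    apply sum_eq_zero
    intro v _
    rw [if_neg]
    intro h
    apply hd
    have h1 : (3 : ℤ) ^ (s + 1) ∣ 3 ^ (s + r + 1) := pow_dvd_pow 3 (by omega)
    have h2 := dvd_sub (dvd_trans h1 h) (Dvd.intro (u * (v : ℤ)) rfl : (3 : ℤ) ^ (s + 1) ∣ 3 ^ (s + 1) * (u * (v : ℤ)))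
    rwa [show y + u * (3 ^ (s + 1) * (v : ℤ)) - z - 3 ^ (s + 1) * (u * (v : ℤ)) = y - z by ring] at h2

theorem ic_nonneg (n : ℕ) (z x : ℤ) : 0 ≤ ic n z x := by
  unfold ic; split_ifs <;> norm_num

theorem ic_le_one (n : ℕ) (z x : ℤ) : ic n z x ≤ 1 := by
  unfold ic; split_ifs <;> norm_num

theorem ic_pr (n : ℕ) (z : ℤ) : Pr n (ic n z) := by
  intro x
  unfold ic
  have : (3 : ℤ) ^ (n + 1) ∣ x + 3 ^ (n + 1) - z ↔ (3 : ℤ) ^ (n + 1) ∣ x - z := by
    rw [show x + 3 ^ (n + 1) - z = (x - z) + 3 ^ (n + 1) by ring]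
    exact Int.dvd_add_left (dvd_refl _)
  simp only [this]

theorem ic_comm (n : ℕ) (z x : ℤ) : ic n z x = ic n x z := by
  unfold ic; simp only [dvd_sub_comm]

theorem ic_mul (n : ℕ) (z x : ℤ) {f : ℤ → ℝ} (h : Pr n f) : ic n z x * f x = ic n z x * f z := by
  unfold ic
  split_ifs with hd
  · rw [h.dvd hd]
  · simp

/-- expansion of a function of level `n` in indicators -/
theorem expand (n : ℕ) (x : ℤ) {f : ℤ → ℝ} (h : Pr n f) : f x = ∑ z ∈ range (3 ^ (n + 1)), f (z : ℤ) * ic n (z : ℤ) x := by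
  calc f x = ∑ z ∈ range (3 ^ (n + 1)), ic n (z : ℤ) x * f x := by rw [← sum_mul, sum_ic, one_mul]
    _ = _ := by
      apply sum_congr rfl
      intro z _
      rw [ic_mul n z x h, mul_comm]

/-- a complete set of residues can be changed by an affine map -/
theorem sum_aff (n : ℕ) {f : ℤ → ℝ} (h : Pr n f) (u c : ℤ) (hu : ¬ (3 : ℤ) ∣ u) :
    ∑ x ∈ range (3 ^ (n + 1)), f (c + u * (x : ℤ)) = ∑ x ∈ range (3 ^ (n + 1)), f (x : ℤ) := by
  have h1 : ∀ x : ℤ, f (c + u * x) = ∑ z ∈ range (3 ^ (n + 1)), f (z : ℤ) * ic n (z : ℤ) (c + u * x) := fun x => expand n _ h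
  rw [sum_congr rfl (fun (x : ℕ) _ => h1 (x : ℤ)), sum_comm]
  apply sum_congr rfl
  intro z _
  rw [← mul_sum]
  have h2 : ∑ x ∈ range (3 ^ (n + 1)), ic n (z : ℤ) (c + u * (x : ℤ)) = 1 := by
    classical
    obtain ⟨v0, hv0, hv⟩ := one_res (n + 1) (c - z) u hu
    rw [sum_eq_single_of_mem v0 hv0]
    · unfold ic
      rw [if_pos]
      have := (hv v0 hv0).mpr rfl
      rwa [show c - (z : ℤ) + u * (v0 : ℤ) = c + u * v0 - z by ring] at this
    · intro v hv' hne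
      unfold ic
      rw [if_neg]
      intro hd
      apply hne
      apply (hv v hv').mp
      rwa [show c - (z : ℤ) + u * (v : ℤ) = c + u * v - z by ring]
  rw [h2, mul_one]

theorem two_pow_not_dvd (d : ℕ) : ¬ (3 : ℤ) ∣ 2 ^ d := by
  intro h
  have := Int.prime_three.dvd_of_dvd_pow h
  norm_num at this

end Pool.Agent.Helper3.Q1
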