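import Pool.Agent.Helper3.Q1.Defs

/-! Words: concatenation, injectivity, shifts, size. -/

namespace Pool.Agent.Helper3.Q1

open Finset

theorem cw_append (v w : List ℕ) : cw (v ++ w) = 2 ^ w.sum * cw v + 3 ^ v.length * cw w := by
  induction v with
  | nil => simp [cw]
  | cons a v ih =>
    simp only [List.cons_append, cw, ih, List.sum_append, List.length_cons]
    ring

theorem cw_snoc (v : List ℕ) (a : ℕ) : cw (v ++ [a]) = 2 ^ a * cw v + 3 ^ v.length := by
  rw [cw_append]; simp [cw]

theorem cp_nil (x : ℤ) : cp [] x := by simp [cp]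

theorem nx_nil (x : ℤ) : nx [] x = x := by simp [nx, cw]

theorem nx_mul {w : List ℕ} {x : ℤ} (h : cp w x) : 3 ^ w.length * nx w x = 2 ^ w.sum * x - cw w := by
  unfold nx; exact Int.mul_ediv_cancel' h

theorem nx_of_mul {w : List ℕ} {x z : ℤ} (h : 3 ^ w.length * z = 2 ^ w.sum * x - cw w) : cp w x ∧ nx w x = z := by
  have h1 : cp w x := by unfold cp; rw [← h]; exact Dvd.intro _ rfl
  refine ⟨h1, ?_⟩
  have h2 := nx_mul h1
  rw [← h2] at h
  exact (mul_left_cancel₀ (by positivity) h).symm

theorem cp_append {v w : List ℕ} {x : ℤ} : cp (v ++ w) x ↔ cp v x ∧ cp w (nx v x) := by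
  have key : ∀ hv : cp v x, 2 ^ (v ++ w).sum * x - cw (v ++ w) = 3 ^ v.length * (2 ^ w.sum * nx v x - cw w) := by
    intro hv
    have := nx_mul hv
    rw [cw_append, List.sum_append, pow_add]
    linear_combination (2 ^ w.sum : ℤ) * (-this)
  constructor
  · intro h
    have hv : cp v x := by
      unfold cp at h ⊢
      rw [cw_append, List.sum_append, List.length_append, pow_add, pow_add] at h
      have h1 : (3 : ℤ) ^ v.length ∣ 2 ^ w.sum * (2 ^ v.sum * x - cw v) := by
        have h2 := dvd_trans (Dvd.intro _ rfl) h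
        have h3 := dvd_add h2 (Dvd.intro _ rfl : (3 : ℤ) ^ v.length ∣ 3 ^ v.length * cw w)
        rwa [show 2 ^ v.sum * 2 ^ w.sum * x - (2 ^ w.sum * cw v + 3 ^ v.length * cw w) + 3 ^ v.length * cw w =
          2 ^ w.sum * (2 ^ v.sum * x - cw v) by ring] at h3
      apply IsCoprime.dvd_of_dvd_mul_left _ h1
      apply IsCoprime.pow
      norm_num [Int.isCoprime_iff_gcd_eq_one]
    refine ⟨hv, ?_⟩
    unfold cp at h ⊢
    rw [key hv, List.length_append, pow_add] at h
    exact (mul_dvd_mul_iff_left (by positivity)).mp h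
  · rintro ⟨hv, hw⟩
    unfold cp at hw ⊢
    rw [key hv, List.length_append, pow_add]
    exact mul_dvd_mul_left _ hw

theorem nx_append {v w : List ℕ} {x : ℤ} (h : cp (v ++ w) x) : nx (v ++ w) x = nx w (nx v x) := by
  obtain ⟨hv, hw⟩ := cp_append.mp h
  apply (nx_of_mul _).2
  rw [cw_append, List.sum_append, List.length_append, pow_add, pow_add]
  have h1 := nx_mul hv
  have h2 := nx_mul hw
  linear_combination (3 ^ v.length : ℤ) * h2 + (2 ^ w.sum : ℤ) * h1

theorem cw_pos {w : List ℕ} (h : w ≠ []) : 0 < cw w := by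
  induction w with
  | nil => exact absurd rfl h
  | cons a w ih =>
    by_cases hw : w = []
    · subst hw; simp [cw]
    · have := ih hw
      simp only [cw]; positivity

theorem cw_nonneg (w : List ℕ) : 0 ≤ cw w := by
  by_cases h : w = []
  · subst h; simp [cw]
  · exact (cw_pos h).le

theorem cw_odd {w : List ℕ} (h : w ≠ []) (h1 : ∀ a ∈ w, 1 ≤ a) : cw w % 2 = 1 := by
  obtain ⟨v, a, rfl⟩ := List.eq_nil_or_concat w |>.resolve_left h
  simp only [List.concat_eq_append] at h1 ⊢
  rw [cw_snoc]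
  have ha : 1 ≤ a := h1 a (by simp)
  obtain ⟨b, rfl⟩ := Nat.exists_eq_add_of_le ha
  have h3 : (3 : ℤ) ^ v.length % 2 = 1 := by
    rw [← Int.odd_iff]; exact Odd.pow (by decide)
  rw [pow_add, pow_one, mul_assoc, Int.add_emod, Int.mul_emod_right, h3]
  norm_num

/-- `2 ^ n * c ≤ 2 ^ d * 3 ^ n` -/
theorem cw_le (w : List ℕ) (h1 : ∀ a ∈ w, 1 ≤ a) : 2 ^ w.length * cw w ≤ 2 ^ w.sum * (3 ^ w.length - 2 ^ w.length) := by
  induction w with
  | nil => simp [cw]
  | cons a w ih =>
    have ih' := ih (fun b hb => h1 b (List.mem_cons_of_mem _ hb))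
    have ha : 1 ≤ a := h1 a (by simp)
    obtain ⟨b, rfl⟩ := Nat.exists_eq_add_of_le ha
    simp only [cw, List.sum_cons, List.length_cons]
    have hb : (1 : ℤ) ≤ 2 ^ b := one_le_pow₀ (by norm_num)
    have h3 : (2 : ℤ) ^ w.length ≤ 3 ^ w.length := pow_le_pow_left₀ (by norm_num) (by norm_num) _
    have hs : (0 : ℤ) < 2 ^ w.sum := by positivity
    have hl : (0 : ℤ) < 2 ^ w.length := by positivity
    have e1 : (2 : ℤ) ^ (w.length + 1) * (2 ^ w.sum + 3 * cw w) = 2 * (2 ^ w.length * 2 ^ w.sum) + 6 * (2 ^ w.length * cw w) := by ring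
    have e2 : (2 : ℤ) ^ (1 + b + w.sum) * (3 ^ (w.length + 1) - 2 ^ (w.length + 1)) =
      2 ^ b * (2 * 2 ^ w.sum * (3 * 3 ^ w.length - 2 * 2 ^ w.length)) := by ring
    rw [e1, e2]
    have h4 : 2 * (2 ^ w.length * 2 ^ w.sum) + 6 * (2 ^ w.length * cw w) ≤ 2 * 2 ^ w.sum * (3 * 3 ^ w.length - 2 * 2 ^ w.length) := by
      nlinarith
    have h5 : (0 : ℤ) ≤ 2 * 2 ^ w.sum * (3 * 3 ^ w.length - 2 * 2 ^ w.length) := by
      have : (0 : ℤ) ≤ 3 * 3 ^ w.length - 2 * 2 ^ w.length := by linarith
      positivity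
    nlinarith

/-- a word is determined by its length, its total exponent and its offset -/
theorem cw_inj : ∀ (n : ℕ) (v w : List ℕ), v.length = n → w.length = n → (∀ a ∈ v, 1 ≤ a) → (∀ a ∈ w, 1 ≤ a) →
    v.sum = w.sum → cw v = cw w → v = w := by
  intro n
  induction n with
  | zero =>
    intro v w hv hw _ _ _ _
    rw [List.length_eq_zero_iff] at hv hw
    rw [hv, hw]
  | succ n ih =>
    intro v w hv hw hv1 hw1 hs hc
    have hvne : v ≠ [] := by intro h; subst h; simp at hv
    have hwne : w ≠ [] := by intro h; subst h; simp at hw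
    obtain ⟨v', a, rfl⟩ := List.eq_nil_or_concat v |>.resolve_left hvne
    obtain ⟨w', b, rfl⟩ := List.eq_nil_or_concat w |>.resolve_left hwne
    simp only [List.concat_eq_append] at *
    have hv' : v'.length = n := by simpa using hv
    have hw' : w'.length = n := by simpa using hw
    rw [cw_snoc, cw_snoc, hv', hw'] at hc
    have hc' : 2 ^ a * cw v' = 2 ^ b * cw w' := by linarith
    rw [List.sum_append, List.sum_append] at hs
    simp only [List.sum_cons, List.sum_nil, add_zero] at hs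
    rcases Nat.eq_zero_or_pos n with hn | hn
    · subst hn
      rw [List.length_eq_zero_iff] at hv' hw'
      subst hv'; subst hw'
      simp at hs
      rw [hs]
    · have hv'ne : v' ≠ [] := by intro h; subst h; simp at hv'; omega
      have hw'ne : w' ≠ [] := by intro h; subst h; simp at hw'; omega
      have ov := cw_odd hv'ne (fun c hc => hv1 c (by simp [hc]))
      have ow := cw_odd hw'ne (fun c hc => hw1 c (by simp [hc]))
      have hab : a = b := by
        rcases lt_trichotomy a b with h | h | h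
        · exfalso
          obtain ⟨e, rfl⟩ := Nat.exists_eq_add_of_lt h
          have h2 : cw v' = 2 * (2 ^ e * cw w') := by
            have h3 : (2 : ℤ) ^ a * cw v' = 2 ^ a * (2 * (2 ^ e * cw w')) := by rw [hc']; ring
            exact mul_left_cancel₀ (by positivity) h3
          omega
        · exact h
        · exfalso
          obtain ⟨e, rfl⟩ := Nat.exists_eq_add_of_lt h
          have h2 : cw w' = 2 * (2 ^ e * cw v') := by
            have h3 : (2 : ℤ) ^ b * cw w' = 2 ^ b * (2 * (2 ^ e * cw v')) := by rw [← hc']; ring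
            exact mul_left_cancel₀ (by positivity) h3
          omega
      subst hab
      have hcc : cw v' = cw w' := mul_left_cancel₀ (by positivity) hc'
      rw [ih v' w' hv' hw' (fun c hc => hv1 c (by simp [hc])) (fun c hc => hw1 c (by simp [hc])) (by omega) hcc]

/-- shifting by a multiple of `3 ^ n` -/
theorem cp_shift {w : List ℕ} {x : ℤ} (m : ℤ) : cp w (x + 3 ^ w.length * m) ↔ cp w x := by
  unfold cp
  rw [show 2 ^ w.sum * (x + 3 ^ w.length * m) - cw w = (2 ^ w.sum * x - cw w) + 3 ^ w.length * (2 ^ w.sum * m) by ring]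
  exact (Int.dvd_add_left (Dvd.intro _ rfl))

theorem nx_shift {w : List ℕ} {x : ℤ} (h : cp w x) (m : ℤ) : nx w (x + 3 ^ w.length * m) = nx w x + 2 ^ w.sum * m := by
  apply (nx_of_mul _).2
  have := nx_mul h
  linear_combination this

theorem nx_odd {w : List ℕ} {x : ℤ} (h : cp w x) (hx : x % 2 = 1) (h1 : ∀ a ∈ w, 1 ≤ a) : nx w x % 2 = 1 := by
  by_cases hw : w = []
  · subst hw; rw [nx_nil]; exact hx
  · have e := nx_mul h
    have hc := cw_odd hw h1
    have hs : ∃ b, w.sum = b + 1 := by
      cases w with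
      | nil => exact absurd rfl hw
      | cons a w =>
        have : 1 ≤ a := h1 a (by simp)
        exact ⟨a - 1 + w.sum, by rw [List.sum_cons]; omega⟩
    obtain ⟨b, hb⟩ := hs
    rw [hb, pow_succ, mul_comm ((2 : ℤ) ^ b) 2, mul_assoc] at e
    have h3 : (3 : ℤ) ^ w.length % 2 = 1 := by rw [← Int.odd_iff]; exact Odd.pow (by decide)
    obtain ⟨q, hq⟩ : ∃ q : ℤ, q = 2 ^ b * x := ⟨_, rfl⟩
    rw [← hq] at e
    have h4 : (3 ^ w.length * nx w x) % 2 = 1 := by rw [e]; omega
    rw [Int.mul_emod, h3] at h4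
    omega

end Pool.Agent.Helper3.Q1
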